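import Mathlib

set_option autoImplicit false
open Set Topology

namespace Pool.Agent.Lib37

section hits

variable {J : Type}

/-- `c` meets every member of `𝒮`. -/
def Hits (𝒮 : Set (Set J)) (c : Finset J) : Prop := ∀ σ ∈ 𝒮, ∃ i ∈ c, i ∈ σ

/-- `c` is a minimal hitting set of `𝒮`. -/
def MinHits (𝒮 : Set (Set J)) (c : Finset J) : Prop :=
  Hits 𝒮 c ∧ ∀ c', c' ⊂ c → ¬ Hits 𝒮 c'

lemma exists_minHits {𝒮 : Set (Set J)} {c : Finset J} (h : Hits 𝒮 c) :
    ∃ c' ⊆ c, MinHits 𝒮 c' := by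
  induction c using Finset.strongInduction with
  | _ c ih =>
  by_cases hm : MinHits 𝒮 c
  · exact ⟨c, Finset.Subset.refl _, hm⟩
  · have : ∃ c', c' ⊂ c ∧ Hits 𝒮 c' := by
      by_contra hcon
      push Not at hcon
      exact hm ⟨h, hcon⟩
    obtain ⟨c', hc', hh⟩ := this
    obtain ⟨c'', h1, h2⟩ := ih c' hc' hh
    exact ⟨c'', h1.trans hc'.1, h2⟩

lemma finite_minHits (rk : J → ℕ) (r n : ℕ) : ∀ (𝒮 : Set (Set J)),
    (∀ σ ∈ 𝒮, {i | i ∈ σ ∧ rk i ≤ r}.Finite) →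
      {c : Finset J | MinHits 𝒮 c ∧ c.card ≤ n ∧ ∀ i ∈ c, rk i ≤ r}.Finite := by
  classical
  induction n with
  | zero =>
    intro 𝒮 _
    refine (finite_singleton ∅).subset ?_
    rintro c ⟨_, hc, _⟩
    simpa using hc
  | succ n ih =>
    intro 𝒮 h𝒮
    rcases 𝒮.eq_empty_or_nonempty with he | ⟨σ₀, hσ₀⟩
    · refine (finite_singleton ∅).subset ?_
      rintro c ⟨hc, _, _⟩
      by_contra hne
      have : (∅ : Finset J) ⊂ c := Finset.nonempty_iff_ne_empty.2 hne |>.empty_ssubset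
      exact hc.2 _ this (by rw [he]; intro σ hσ; exact hσ.elim)
    · have h1 : ∀ i : J, {c : Finset J | MinHits {σ ∈ 𝒮 | i ∉ σ} c ∧ c.card ≤ n ∧
          ∀ i ∈ c, rk i ≤ r}.Finite := fun i => ih _ (fun σ hσ => h𝒮 σ hσ.1)
      refine ((h𝒮 σ₀ hσ₀).biUnion (t := fun i => (insert i) '' {c : Finset J |
        MinHits {σ ∈ 𝒮 | i ∉ σ} c ∧ c.card ≤ n ∧ ∀ i ∈ c, rk i ≤ r})
        fun i _ => (h1 i).image _).subset ?_
      rintro c ⟨hc, hcard, hrk⟩
      obtain ⟨i, hic, hiσ⟩ := hc.1 σ₀ hσ₀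
      refine mem_biUnion (x := i) ⟨hiσ, hrk i hic⟩ ⟨c.erase i, ⟨⟨?_, ?_⟩, ?_, ?_⟩, ?_⟩
      · rintro σ ⟨hσ, hiσ'⟩
        obtain ⟨j, hj, hjσ⟩ := hc.1 σ hσ
        refine ⟨j, Finset.mem_erase.2 ⟨?_, hj⟩, hjσ⟩
        rintro rfl
        exact hiσ' hjσ
      · intro c' hc' hh
        apply hc.2 (insert i c')
        · refine ⟨?_, ?_⟩
          · intro j hj
            rcases Finset.mem_insert.1 hj with rfl | hj
            · exact hic
            · exact Finset.mem_of_mem_erase (hc'.1 hj)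
          · intro hsub
            apply hc'.2
            intro j hj
            have hj2 := hsub (Finset.mem_of_mem_erase hj)
            rcases Finset.mem_insert.1 hj2 with rfl | hj2
            · exact absurd rfl (Finset.ne_of_mem_erase hj)
            · exact hj2
        · intro σ hσ
          by_cases hi : i ∈ σ
          · exact ⟨i, Finset.mem_insert_self _ _, hi⟩
          · obtain ⟨j, hj, hjσ⟩ := hh σ ⟨hσ, hi⟩
            exact ⟨j, Finset.mem_insert_of_mem hj, hjσ⟩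
      · rw [Finset.card_erase_of_mem hic]
        omega
      · intro j hj
        exact hrk j (Finset.mem_of_mem_erase hj)
      · exact Finset.insert_erase hic

/-- All minimal hitting sets together form a countable set. -/
lemma countable_minHits (rk : J → ℕ) (𝒮 : Set (Set J))
    (h𝒮 : ∀ σ ∈ 𝒮, ∀ r, {i | i ∈ σ ∧ rk i ≤ r}.Finite) :
    {c : Finset J | MinHits 𝒮 c}.Countable := by
  have h1 : {c : Finset J | MinHits 𝒮 c} ⊆
      ⋃ r : ℕ, {c : Finset J | MinHits 𝒮 c ∧ c.card ≤ r ∧ ∀ i ∈ c, rk i ≤ r} := by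
    intro c hc
    refine mem_iUnion.2 ⟨max c.card (c.sup rk), hc, le_max_left _ _, fun i hi => ?_⟩
    exact (Finset.le_sup hi).trans (le_max_right _ _)
  refine (countable_iUnion fun r => ?_).mono h1
  exact (finite_minHits rk r r 𝒮 fun σ hσ => h𝒮 σ hσ r).countable

end hits

section str

variable {I X Y : Type} [TopologicalSpace X] [TopologicalSpace Y]

/-- A zero-dimensional `c₀`-structure on `X`: every point is coded by a subset `s x` of `I`
having finitely many elements of each rank, and the topology of `X` is the one of `2^I`. -/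
structure Str (s : X → Set I) (rk : I → ℕ) : Prop where
  fin : ∀ x n, {i | i ∈ s x ∧ rk i ≤ n}.Finite
  opn : ∀ i, IsOpen {x | i ∈ s x}
  cls : ∀ i, IsClosed {x | i ∈ s x}
  basis : ∀ x (U : Set X), IsOpen U → x ∈ U → ∃ a b : Finset I,
    (∀ i ∈ a, i ∈ s x) ∧ (∀ i ∈ b, i ∉ s x) ∧
      ∀ x', (∀ i ∈ a, i ∈ s x') → (∀ i ∈ b, i ∉ s x') → x' ∈ U

variable {s : X → Set I} {rk : I → ℕ} {f : X → Y}

/-- basic clopen sets -/
def box (s : X → Set I) (a b : Finset I) : Set X :=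
  {x | (∀ i ∈ a, i ∈ s x) ∧ (∀ i ∈ b, i ∉ s x)}

lemma Str.isOpen_box (hs : Str s rk) (a b : Finset I) : IsOpen (box s a b) := by
  have : box s a b = (⋂ i ∈ a, {x | i ∈ s x}) ∩ (⋂ i ∈ b, {x | i ∈ s x}ᶜ) := by
    ext x
    simp [box]
  rw [this]
  refine IsOpen.inter ?_ ?_
  · exact isOpen_biInter_finset fun i _ => hs.opn i
  · exact isOpen_biInter_finset fun i _ => (hs.cls i).isOpen_compl

lemma Str.isClosed_box (hs : Str s rk) (a b : Finset I) : IsClosed (box s a b) := by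
  have : box s a b = (⋂ i ∈ a, {x | i ∈ s x}) ∩ (⋂ i ∈ b, {x | i ∈ s x}ᶜ) := by
    ext x
    simp [box]
  rw [this]
  refine IsClosed.inter ?_ ?_
  · exact isClosed_biInter fun i _ => hs.cls i
  · exact isClosed_biInter fun i _ => (hs.opn i).isClosed_compl

lemma isOpen_kern (hf : IsProperMap f) {U : Set X} (hU : IsOpen U) : IsOpen (kernImage f U) :=
  isClosedMap_iff_kernImage.1 hf.isClosedMap hU

lemma isCompact_fib (hf : IsProperMap f) (y : Y) : IsCompact {x | f x = y} :=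
  (isProperMap_iff_isClosedMap_and_compact_fibers.1 hf).2.2 y

/-- If the fibre over `y` is covered by an increasing sequence of open sets, then it is contained
in one of them. -/
lemma exists_kern_of_mono (hf : IsProperMap f) {W : ℕ → Set X} (hW : ∀ k, IsOpen (W k))
    (hm : Monotone W) {y : Y} (h : ∀ x, f x = y → ∃ k, x ∈ W k) : ∃ k, y ∈ kernImage f (W k) := by
  obtain ⟨k, hk⟩ := (isCompact_fib hf y).elim_directed_cover W hW
    (fun x hx => mem_iUnion.2 (h x hx)) hm.directed_le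
  exact ⟨k, fun x hx => hk hx⟩

/-- Every well-ordered family of open sets has a `σ`-point-finite expansion of its layers. -/
theorem layers (hs : Str s rk) (hf : IsProperMap f) (hsurj : Function.Surjective f)
    {ι : Type} [LinearOrder ι] [WellFoundedLT ι] (O : ι → Set Y) (hO : ∀ ξ, IsOpen (O ξ)) :
    ∃ D : ℕ → ι → Set Y, (∀ k ξ, IsOpen (D k ξ)) ∧ (∀ k y, {ξ | y ∈ D k ξ}.Finite) ∧
      (∀ ξ, Monotone (fun k => D k ξ)) ∧
      ∀ ξ y, y ∈ O ξ → (∀ ξ' < ξ, y ∉ O ξ') → ∃ k, y ∈ D k ξ := by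
  classical
  let P : ℕ → Finset I → ι → Prop := fun l a ξ =>
    ∃ b : Finset I, (∀ i ∈ b, rk i ≤ l ∧ i ∉ a) ∧ ∀ x ∈ box s a b, ∃ ξ' ≤ ξ, f x ∈ O ξ'
  let R : ℕ → Finset I → ι → Prop := fun l a ξ => P l a ξ ∧ ∀ ξ'' < ξ, ¬ P l a ξ''
  have hR : ∀ l a, {ξ | R l a ξ}.Finite := by
    intro l a
    apply Set.Subsingleton.finite
    intro ξ hξ ξ' hξ'
    rcases lt_trichotomy ξ ξ' with h | h | h
    · exact absurd hξ.1 (hξ'.2 _ h)
    · exact h
    · exact absurd hξ'.1 (hξ.2 _ h)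
  let W : ℕ → ι → Set X := fun k ξ =>
    {x | ∃ a : Finset I, (∀ i ∈ a, i ∈ s x ∧ rk i ≤ k) ∧ ∃ l ≤ k, R l a ξ}
  have hWo : ∀ k ξ, IsOpen (W k ξ) := by
    intro k ξ
    rw [isOpen_iff_forall_mem_open]
    rintro x ⟨a, ha, l, hl, hR⟩
    refine ⟨box s a ∅, ?_, hs.isOpen_box _ _, ⟨fun i hi => (ha i hi).1, by simp⟩⟩
    intro x' hx'
    exact ⟨a, fun i hi => ⟨hx'.1 i hi, (ha i hi).2⟩, l, hl, hR⟩
  have hWm : ∀ ξ, Monotone (fun k => W k ξ) := by
    intro ξ k k' hkk' x hx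
    obtain ⟨a, ha, l, hl, hR⟩ := hx
    exact ⟨a, fun i hi => ⟨(ha i hi).1, (ha i hi).2.trans hkk'⟩, l, hl.trans hkk', hR⟩
  refine ⟨fun k ξ => kernImage f (W k ξ), fun k ξ => isOpen_kern hf (hWo k ξ), ?_, ?_, ?_⟩
  · intro k y
    obtain ⟨x, hx⟩ := hsurj y
    have hfin : {a : Finset I | ∀ i ∈ a, i ∈ s x ∧ rk i ≤ k}.Finite := by
      have h1 := hs.fin x k
      refine (h1.toFinset.powerset.finite_toSet).subset ?_
      intro a ha
      simp only [Finset.coe_powerset, mem_preimage, mem_powerset_iff]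
      intro i hi
      simp only [Finite.coe_toFinset]
      exact ha i hi
    refine ((hfin.biUnion fun a _ => (finite_Iic k).biUnion fun l _ => hR l a)).subset ?_
    intro ξ hξ
    obtain ⟨a, ha, l, hl, hR'⟩ := hξ hx
    exact mem_biUnion (x := a) ha (mem_biUnion (x := l) hl hR')
  · intro ξ k k' hkk' y hy x hx
    exact hWm ξ hkk' (hy hx)
  · intro ξ y hy hmin
    refine exists_kern_of_mono hf (fun k => hWo k ξ) (hWm ξ) ?_
    intro x hx
    have hxO : x ∈ f ⁻¹' (O ξ) := by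
      rw [mem_preimage, hx]
      exact hy
    obtain ⟨a₀, b₀, ha₀, hb₀, hbox⟩ := hs.basis x _ ((hO ξ).preimage hf.continuous) hxO
    let l := b₀.sup rk
    let a : Finset I := a₀ ∪ (hs.fin x l).toFinset
    have ha : ∀ i ∈ a, i ∈ s x := by
      intro i hi
      rcases Finset.mem_union.1 hi with hi | hi
      · exact ha₀ i hi
      · exact ((Finite.mem_toFinset _).1 hi).1
    refine ⟨max l (a.sup rk), a, fun i hi => ⟨ha i hi, (Finset.le_sup hi).trans (le_max_right _ _)⟩,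
      l, le_max_left _ _, ?_, ?_⟩
    · refine ⟨b₀, fun i hi => ⟨Finset.le_sup hi, fun hia => hb₀ i hi (ha i hia)⟩, ?_⟩
      intro x' hx'
      exact ⟨ξ, le_rfl, hbox x' (fun i hi => hx'.1 i (Finset.mem_union_left _ hi)) hx'.2⟩
    · rintro ξ'' hξ'' ⟨b, hb, hbb⟩
      have hxbox : x ∈ box s a b := by
        refine ⟨ha, fun i hi his => (hb i hi).2 ?_⟩
        exact Finset.mem_union_right _ ((Finite.mem_toFinset _).2 ⟨his, (hb i hi).1⟩)
      obtain ⟨ξ', hξ', hfx⟩ := hbb x hxbox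
      rw [hx] at hfx
      exact hmin ξ' (lt_of_le_of_lt hξ' hξ'') hfx

end str

section coz

variable {I X Y : Type} [TopologicalSpace X] [TopologicalSpace Y]
variable {s : X → Set I} {rk : I → ℕ} {f : X → Y}

/-- Every countable open cover has a closed shrinking. -/
def Shrinks (Y : Type) [TopologicalSpace Y] : Prop :=
  ∀ V : ℕ → Set Y, (∀ n, IsOpen (V n)) → (∀ y, ∃ n, y ∈ V n) →
    ∃ E : ℕ → Set Y, (∀ n, IsClosed (E n)) ∧ (∀ n, E n ⊆ V n) ∧ ∀ y, ∃ n, y ∈ E n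

/-- Every open set is the union of a `σ`-point-finite family of cozero sets. -/
def OpenPF (Y : Type) [TopologicalSpace Y] : Prop :=
  ∀ D : Set Y, IsOpen D → ∃ (ι : Type) (w : ι → ℕ → C(Y, unitInterval)),
    (∀ ξ n y, w ξ n y ≠ 0 → y ∈ D) ∧ (∀ n y, {ξ | w ξ n y ≠ 0}.Finite) ∧
      ∀ y ∈ D, ∃ ξ n, w ξ n y ≠ 0

lemma urys [NormalSpace Y] {A U : Set Y} (hA : IsClosed A) (hU : IsOpen U) (h : A ⊆ U) :
    ∃ g : C(Y, unitInterval), (∀ y ∈ A, g y = 1) ∧ ∀ y, g y ≠ 0 → y ∈ U := by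
  obtain ⟨g, h0, h1, hI⟩ := exists_continuous_zero_one_of_isClosed (X := Y)
    (s := Uᶜ) (t := A) hU.isClosed_compl hA
    (disjoint_left.2 fun y hy hyA => hy (h hyA))
  refine ⟨⟨fun y => ⟨g y, hI y⟩, by fun_prop⟩, ?_, ?_⟩
  · intro y hy
    apply Subtype.ext
    simpa using h1 hy
  · intro y hy
    by_contra hyU
    apply hy
    apply Subtype.ext
    simpa using h0 hyU

theorem openPF_of_shrinks [NormalSpace Y] [T1Space Y] (hs : Str s rk) (hf : IsProperMap f)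
    (hsurj : Function.Surjective f) (hY : Shrinks Y) : OpenPF Y := by
  classical
  intro D hD
  obtain ⟨ι, _, _, e, he1, he2⟩ : ∃ (ι : Type) (_ : LinearOrder ι) (_ : WellFoundedLT ι)
      (e : ι → C(Y, unitInterval)), (∀ ξ y, e ξ y ≠ 0 → y ∈ D) ∧
      ∀ g : C(Y, unitInterval), (∀ y, g y ≠ 0 → y ∈ D) → ∃ ξ, e ξ = g := by
    obtain ⟨a, b, _⟩ := Cardinal.exists_ord_eq_type_lt
      {g : C(Y, unitInterval) // ∀ y, g y ≠ 0 → y ∈ D}
    exact ⟨{g : C(Y, unitInterval) // ∀ y, g y ≠ 0 → y ∈ D}, a, b, Subtype.val,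
      fun ξ => ξ.2, fun g hg => ⟨⟨g, hg⟩, rfl⟩⟩
  have hO : ∀ g : ι, IsOpen {y | e g y ≠ 0} := by
    intro g
    exact isOpen_ne_fun (e g).continuous continuous_const
  obtain ⟨E, hEo, hEf, hEm, hEc⟩ := layers hs hf hsurj (fun g : ι => {y | e g y ≠ 0}) hO
  -- the closed layers
  let L : ι → ℕ → Set Y := fun g m =>
    {y | (1 : ℝ) / (m + 1) ≤ (e g y : ℝ)} \ ⋃ g' : {g' : ι // g' < g}, {y | e g'.1 y ≠ 0}
  have hL : ∀ g m, IsClosed (L g m) := by
    intro g m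
    refine IsClosed.sdiff (isClosed_le continuous_const ?_) (isOpen_iUnion fun g' => hO g'.1)
    exact continuous_subtype_val.comp (e g).continuous
  have hLD : ∀ g m, L g m ⊆ {y | e g y ≠ 0} := by
    intro g m y hy h0
    have h1 : (1 : ℝ) / (m + 1) ≤ (e g y : ℝ) := hy.1
    rw [h0] at h1
    have : (0 : ℝ) < 1 / (m + 1) := by positivity
    simp at h1
    linarith
  have hLmin : ∀ g m y, y ∈ L g m → ∀ g' < g, y ∉ {y | e g' y ≠ 0} := by
    intro g m y hy g' hg' hy'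
    exact hy.2 (mem_iUnion.2 ⟨⟨g', hg'⟩, hy'⟩)
  have key : ∀ g m, ∃ F : ℕ → Set Y, (∀ k, IsClosed (F k)) ∧ (∀ k, F k ⊆ E k g ∩ {y | e g y ≠ 0}) ∧
      ∀ y ∈ L g m, ∃ k, y ∈ F k := by
    intro g m
    obtain ⟨F, hF1, hF2, hF3⟩ := hY (fun k => E k g ∪ (L g m)ᶜ)
      (fun k => (hEo k g).union (hL g m).isOpen_compl) (by
        intro y
        by_cases hy : y ∈ L g m
        · obtain ⟨k, hk⟩ := hEc g y (hLD g m hy) (hLmin g m y hy)
          exact ⟨k, Or.inl hk⟩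
        · exact ⟨0, Or.inr hy⟩)
    refine ⟨fun k => F k ∩ L g m, fun k => (hF1 k).inter (hL g m), ?_, ?_⟩
    · rintro k y ⟨hy1, hy2⟩
      refine ⟨?_, hLD g m hy2⟩
      rcases hF2 k hy1 with h | h
      · exact h
      · exact absurd hy2 h
    · intro y hy
      obtain ⟨k, hk⟩ := hF3 y
      exact ⟨k, hk, hy⟩
  choose F hF1 hF2 hF3 using key
  have hw : ∀ g m k, ∃ w : C(Y, unitInterval), (∀ y ∈ F g m k, w y = 1) ∧
      ∀ y, w y ≠ 0 → y ∈ E k g ∩ {y | e g y ≠ 0} := by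
    intro g m k
    exact urys (hF1 g m k) ((hEo k g).inter (hO g)) (hF2 g m k)
  choose w hw1 hw2 using hw
  refine ⟨ι, fun g n => w g n.unpair.1 n.unpair.2, ?_, ?_, ?_⟩
  · intro g n y hy
    exact he1 g y (hw2 _ _ _ y hy).2
  · intro n y
    refine (hEf n.unpair.2 y).subset ?_
    intro g hg
    exact (hw2 _ _ _ y hg).1
  · intro y hy
    obtain ⟨g₀, hg₀, hg₀'⟩ := urys (isClosed_singleton (x := y)) hD (singleton_subset_iff.2 hy)
    have hne : {g : ι | e g y ≠ 0}.Nonempty := by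
      obtain ⟨ξ, hξ⟩ := he2 g₀ hg₀'
      refine ⟨ξ, ?_⟩
      have : g₀ y = 1 := hg₀ y rfl
      simp [hξ, this]
    let g := wellFounded_lt.min {g : ι | e g y ≠ 0} hne
    have hg : e g y ≠ 0 := wellFounded_lt.min_mem {g : ι | e g y ≠ 0} hne
    have hgm : ∀ g' < g, e g' y = 0 := by
      intro g' hg'
      by_contra hcon
      exact wellFounded_lt.not_lt_min {g : ι | e g y ≠ 0} hcon hg'
    have hpos : (0 : ℝ) < (e g y : ℝ) := by
      have h1 := (e g y).2.1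
      rcases h1.lt_or_eq with h | h
      · exact h
      · exact absurd (Subtype.ext h.symm) hg
    obtain ⟨m, hm⟩ := exists_nat_one_div_lt hpos
    have hyL : y ∈ L g m := by
      refine ⟨hm.le, ?_⟩
      intro hcon
      obtain ⟨g', hg'⟩ := mem_iUnion.1 hcon
      exact hg' (hgm g'.1 g'.2)
    obtain ⟨k, hk⟩ := hF3 g m y hyL
    refine ⟨g, Nat.pair m k, ?_⟩
    simp only [Nat.unpair_pair]
    rw [hw1 g m k y hk]
    exact one_ne_zero

end coz

section first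

variable {I X Y : Type} [TopologicalSpace X] [TopologicalSpace Y]
variable {s : X → Set I} {rk : I → ℕ} {f : X → Y}

/-- the pair of codes of two points, as a subset of `I ⊕ I` -/
def pr (s : X → Set I) (x x' : X) : Set (I ⊕ I) := Sum.inl '' s x ∪ Sum.inr '' s x'

lemma inl_mem_pr {x x' : X} {i : I} : (Sum.inl i : I ⊕ I) ∈ pr s x x' ↔ i ∈ s x := by
  simp [pr]

lemma inr_mem_pr {x x' : X} {i : I} : (Sum.inr i : I ⊕ I) ∈ pr s x x' ↔ i ∈ s x' := by
  simp [pr]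

/-- The family to be hit: pairs of points of the same fibre, the first one above `a`,
the second one outside `U`. -/
def Zf (f : X → Y) (s : X → Set I) (a : Finset I) (U : Set X) : Set (Set (I ⊕ I)) :=
  {σ | ∃ x x', (∀ i ∈ a, i ∈ s x) ∧ f x = f x' ∧ x' ∉ U ∧ σ = pr s x x'}

lemma Str.fin_pr (hs : Str s rk) (x x' : X) (r : ℕ) :
    {j | j ∈ pr s x x' ∧ Sum.elim rk rk j ≤ r}.Finite := by
  refine (((hs.fin x r).image Sum.inl).union ((hs.fin x' r).image Sum.inr)).subset ?_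
  rintro (i | i) ⟨hj, hr⟩
  · left
    exact ⟨i, ⟨inl_mem_pr.1 hj, hr⟩, rfl⟩
  · right
    exact ⟨i, ⟨inr_mem_pr.1 hj, hr⟩, rfl⟩

lemma Str.fin_Zf (hs : Str s rk) (a : Finset I) (U : Set X) (σ : Set (I ⊕ I))
    (hσ : σ ∈ Zf f s a U) (r : ℕ) : {j | j ∈ σ ∧ Sum.elim rk rk j ≤ r}.Finite := by
  obtain ⟨x, x', _, _, _, rfl⟩ := hσ
  exact hs.fin_pr x x' r

/-- hitting gives inclusion -/
lemma hits_iff {a : Finset I} {U : Set X} {c : Finset (I ⊕ I)} :
    Hits (Zf f s a U) c ↔ ∀ x x', (∀ i ∈ a, i ∈ s x) → f x = f x' → x' ∉ U →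
      (∃ i, Sum.inl i ∈ c ∧ i ∈ s x) ∨ ∃ i, Sum.inr i ∈ c ∧ i ∈ s x' := by
  constructor
  · intro h x x' h1 h2 h3
    obtain ⟨j, hj, hj'⟩ := h _ ⟨x, x', h1, h2, h3, rfl⟩
    rcases j with i | i
    · exact Or.inl ⟨i, hj, inl_mem_pr.1 hj'⟩
    · exact Or.inr ⟨i, hj, inr_mem_pr.1 hj'⟩
  · rintro h σ ⟨x, x', h1, h2, h3, rfl⟩
    rcases h x x' h1 h2 h3 with ⟨i, hi, hi'⟩ | ⟨i, hi, hi'⟩
    · exact ⟨_, hi, inl_mem_pr.2 hi'⟩
    · exact ⟨_, hi, inr_mem_pr.2 hi'⟩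

/-- The set of points of `Y` all of whose preimages meet `Λ`. -/
def Gd (f : X → Y) (s : X → Set I) (Λ : Set I) : Set Y :=
  {y | ∀ x, f x = y → ∃ i ∈ Λ, i ∈ s x}

lemma Str.isOpen_meets (hs : Str s rk) (Λ : Set I) : IsOpen {x | ∃ i ∈ Λ, i ∈ s x} := by
  have : {x | ∃ i ∈ Λ, i ∈ s x} = ⋃ i ∈ Λ, {x | i ∈ s x} := by
    ext x; simp
  rw [this]
  exact isOpen_biUnion fun i _ => hs.opn i

theorem firstHalf (hs : Str s rk) (hf : IsProperMap f)
    (hsurj : Function.Surjective f) (hY : OpenPF Y) :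
    ∃ (A : Type) (u : A → C(Y, unitInterval)) (Λ : A → Finset I) (lev : A → ℕ),
      (∀ n y, {α | lev α ≤ n ∧ u α y ≠ 0}.Finite) ∧
      ∀ y, ∃ x, f x = y ∧ ∀ i ∈ s x, ∃ α, u α y ≠ 0 ∧ i ∈ Λ α := by
  classical
  let W : ℕ → Finset I → Set X := fun k Λ =>
    {x | ∃ (a : Finset I) (c : Finset (I ⊕ I)), (∀ i ∈ a, i ∈ s x ∧ rk i ≤ k) ∧
      (MinHits (Zf f s a ∅) c ∧ c.card ≤ k ∧ ∀ j ∈ c, Sum.elim rk rk j ≤ k) ∧
      c.toRight = Λ ∧ ∀ i ∈ c.toLeft, i ∉ s x}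
  have hWo : ∀ k Λ, IsOpen (W k Λ) := by
    intro k Λ
    rw [isOpen_iff_forall_mem_open]
    rintro x ⟨a, c, ha, hc, hr, hl⟩
    refine ⟨box s a c.toLeft, ?_, hs.isOpen_box _ _, ⟨fun i hi => (ha i hi).1, hl⟩⟩
    intro x' hx'
    exact ⟨a, c, fun i hi => ⟨hx'.1 i hi, (ha i hi).2⟩, hc, hr, hx'.2⟩
  have hWm : ∀ Λ, Monotone (fun k => W k Λ) := by
    rintro Λ k k' hkk' x ⟨a, c, ha, ⟨hc1, hc2, hc3⟩, hr, hl⟩
    exact ⟨a, c, fun i hi => ⟨(ha i hi).1, (ha i hi).2.trans hkk'⟩,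
      ⟨hc1, hc2.trans hkk', fun j hj => (hc3 j hj).trans hkk'⟩, hr, hl⟩
  have hfin : ∀ k y, {Λ | y ∈ kernImage f (W k Λ)}.Finite := by
    intro k y
    obtain ⟨x, hx⟩ := hsurj y
    have hfin : {a : Finset I | ∀ i ∈ a, i ∈ s x ∧ rk i ≤ k}.Finite := by
      have h1 := hs.fin x k
      refine (h1.toFinset.powerset.finite_toSet).subset ?_
      intro a ha
      simp only [Finset.coe_powerset, mem_preimage, mem_powerset_iff]
      intro i hi
      simp only [Finite.coe_toFinset]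
      exact ha i hi
    refine ((hfin.biUnion fun a _ => (finite_minHits (Sum.elim rk rk) k k (Zf f s a ∅)
      (fun σ hσ => hs.fin_Zf a ∅ σ hσ k)).image Finset.toRight)).subset ?_
    intro Λ hΛ
    obtain ⟨a, c, ha, hc, hr, hl⟩ := hΛ hx
    exact mem_biUnion (x := a) ha ⟨c, hc, hr⟩
  have hcov : ∀ y (Λ : Finset I), y ∈ Gd f s ↑Λ → (∀ Λ' : Finset I, Λ' ⊂ Λ → y ∉ Gd f s ↑Λ') →
      ∃ k, y ∈ kernImage f (W k Λ) := by
    intro y Λ hy hmin
    refine exists_kern_of_mono hf (fun k => hWo k Λ) (hWm Λ) ?_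
    intro x hx
    have hGo : IsOpen (Gd f s (↑Λ : Set I)) := by
      have : Gd f s (↑Λ : Set I) = kernImage f {x | ∃ i ∈ (↑Λ : Set I), i ∈ s x} := by
        ext z
        rfl
      rw [this]
      exact isOpen_kern hf (hs.isOpen_meets _)
    have hxG : x ∈ f ⁻¹' (Gd f s (↑Λ : Set I)) := by
      rw [mem_preimage, hx]
      exact hy
    obtain ⟨a₀, b₀, ha₀, hb₀, hbox⟩ := hs.basis x _ (hGo.preimage hf.continuous) hxG
    have hhit : Hits (Zf f s a₀ ∅) (b₀.disjSum Λ) := by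
      rw [hits_iff]
      intro z z' hz hzz' _
      by_cases hb : ∃ i ∈ b₀, i ∈ s z
      · left
        obtain ⟨i, hi, hi'⟩ := hb
        exact ⟨i, by simpa using hi, hi'⟩
      · right
        push Not at hb
        obtain ⟨i, hi, hi'⟩ := hbox z hz hb z' hzz'.symm
        exact ⟨i, by simpa using hi, hi'⟩
    obtain ⟨c, hc, hcm⟩ := exists_minHits hhit
    have hcl : ∀ i ∈ c.toLeft, i ∉ s x := by
      intro i hi
      have := hc (Finset.mem_toLeft.1 hi)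
      exact hb₀ i (by simpa using this)
    have hcr : c.toRight ⊆ Λ := by
      intro i hi
      have := hc (Finset.mem_toRight.1 hi)
      simpa using this
    have hcr' : c.toRight = Λ := by
      by_contra hne
      apply hmin c.toRight (Finset.ssubset_iff_subset_ne.2 ⟨hcr, hne⟩)
      intro x' hx'
      rcases hits_iff.1 hcm.1 x x' ha₀ (hx.trans hx'.symm) (by simp) with ⟨i, hi, hi'⟩ | ⟨i, hi, hi'⟩
      · exact absurd hi' (hcl i (Finset.mem_toLeft.2 hi))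
      · exact ⟨i, by simpa using hi, hi'⟩
    refine ⟨max (a₀.sup rk) (max c.card (c.sup (Sum.elim rk rk))), a₀, c,
      fun i hi => ⟨ha₀ i hi, (Finset.le_sup hi).trans (le_max_left _ _)⟩, ⟨hcm, ?_, ?_⟩, hcr', hcl⟩
    · exact (le_max_left _ _).trans (le_max_right _ _)
    · intro j hj
      exact (Finset.le_sup (f := Sum.elim rk rk) hj).trans
        ((le_max_right _ _).trans (le_max_right _ _))
  -- cozero families
  have hD : ∀ (k : ℕ) (Λ : Finset I), IsOpen (kernImage f (W k Λ)) :=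
    fun k Λ => isOpen_kern hf (hWo k Λ)
  choose ι w hw1 hw2 hw3 using fun (k : ℕ) (Λ : Finset I) => hY _ (hD k Λ)
  refine ⟨Σ (q : (ℕ × Finset I) × ℕ), ι q.1.1 q.1.2, fun α => w α.1.1.1 α.1.1.2 α.2 α.1.2,
    fun α => α.1.1.2, fun α => max α.1.1.1 α.1.2, ?_, ?_⟩
  · intro n y
    have h1 : ({q : (ℕ × Finset I) × ℕ | q.1.1 ≤ n ∧ q.2 ≤ n ∧
        y ∈ kernImage f (W q.1.1 q.1.2)}).Finite := by
      refine (((finite_Iic n).biUnion fun k _ => (finite_Iic n).biUnion fun m _ =>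
        ((hfin k y).image fun Λ => ((k, Λ), m)))).subset ?_
      rintro ⟨⟨k, Λ⟩, m⟩ ⟨hk, hm, hy⟩
      exact mem_biUnion (x := k) hk (mem_biUnion (x := m) hm ⟨Λ, hy, rfl⟩)
    refine (h1.biUnion (t := fun q => (fun ξ : ι q.1.1 q.1.2 =>
      (⟨q, ξ⟩ : Σ (q : (ℕ × Finset I) × ℕ), ι q.1.1 q.1.2)) '' {ξ | w q.1.1 q.1.2 ξ q.2 y ≠ 0})
      fun q _ => (hw2 _ _ q.2 y).image _).subset ?_
    rintro ⟨q, ξ⟩ ⟨hlev, hu⟩
    refine mem_biUnion (x := q) ⟨(le_max_left _ _).trans hlev, (le_max_right _ _).trans hlev,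
      hw1 _ _ _ _ _ hu⟩ ⟨ξ, hu, rfl⟩
  · intro y
    by_contra hcon
    push Not at hcon
    -- bad set
    let Bad : Set I := {i | ∀ α : Σ (q : (ℕ × Finset I) × ℕ), ι q.1.1 q.1.2,
      w α.1.1.1 α.1.1.2 α.2 α.1.2 y ≠ 0 → i ∉ α.1.1.2}
    have hcov2 : {x | f x = y} ⊆ ⋃ i : Bad, {x | (i : I) ∈ s x} := by
      intro x hx
      obtain ⟨i, hi, hi'⟩ := hcon x hx
      exact mem_iUnion.2 ⟨⟨i, hi'⟩, hi⟩
    obtain ⟨t, ht⟩ := (isCompact_fib hf y).elim_finite_subcover _ (fun i : Bad => hs.opn i.1) hcov2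
    let Λ₀ : Finset I := t.map (Function.Embedding.subtype _)
    have hΛ₀ : y ∈ Gd f s (↑Λ₀ : Set I) := by
      intro x hx
      have := ht hx
      simp only [mem_iUnion, exists_prop] at this
      obtain ⟨i, hi, hi'⟩ := this
      exact ⟨i.1, by simpa [Λ₀] using hi, hi'⟩
    have hmin : ∃ Λ : Finset I, Λ ⊆ Λ₀ ∧ y ∈ Gd f s (↑Λ : Set I) ∧
        ∀ Λ' : Finset I, Λ' ⊂ Λ → y ∉ Gd f s (↑Λ' : Set I) := by
      clear_value Λ₀
      induction Λ₀ using Finset.strongInduction with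
      | _ c ih =>
      by_cases hm : ∀ Λ' : Finset I, Λ' ⊂ c → y ∉ Gd f s (↑Λ' : Set I)
      · exact ⟨c, Finset.Subset.refl _, hΛ₀, hm⟩
      · push Not at hm
        obtain ⟨c', hc', hh⟩ := hm
        obtain ⟨c'', h1, h2⟩ := ih c' hc' hh
        exact ⟨c'', h1.trans hc'.1, h2⟩
    obtain ⟨Λ, hΛ1, hΛ2, hΛ3⟩ := hmin
    obtain ⟨k, hk⟩ := hcov y Λ hΛ2 hΛ3
    obtain ⟨ξ, n, hξ⟩ := hw3 k Λ y hk
    obtain ⟨x, hx⟩ := hsurj y
    obtain ⟨i, hi, _⟩ := hΛ2 x hx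
    have hi0 : i ∈ Λ₀ := hΛ1 hi
    simp only [Λ₀, Finset.mem_map, Function.Embedding.subtype_apply, Subtype.exists,
      exists_and_right, exists_eq_right] at hi0
    obtain ⟨hiB, _⟩ := hi0
    exact hiB ⟨((k, Λ), n), ξ⟩ hξ hi

end first

end Pool.Agent.Lib37
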