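import Mathlib
import Pool.Agent.Lib37.Basic

set_option autoImplicit false
open Set Topology Filter

namespace Pool.Agent.Lib37

lemma le_fromBinary (z : ℕ → Bool) (m : ℕ) (h : z m = true) :
    ((1 : ℝ) / 2) ^ (m + 1) ≤ (Real.fromBinary z : ℝ) := by
  have h1 : (Real.fromBinary z : ℝ) =
      Real.ofDigits (b := 2) (fun n => finTwoEquiv.symm (z n)) := rfl
  rw [h1]
  unfold Real.ofDigits
  refine le_trans ?_ (Real.summable_ofDigitsTerm.le_tsum m fun n _ => Real.ofDigitsTerm_nonneg)
  unfold Real.ofDigitsTerm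
  have h2 : ((finTwoEquiv.symm (z m) : Fin 2) : ℕ) = 1 := by
    rw [h]
    rfl
  rw [h2]
  simp

/-- the positive part, squeezed into the unit interval -/
noncomputable def sq (t : ℝ) : unitInterval :=
  ⟨max t 0 / (1 + max t 0), by
    have : 0 ≤ max t 0 := le_max_right _ _
    constructor
    · positivity
    · rw [div_le_one (by positivity)]
      linarith⟩

lemma continuous_sq : Continuous sq := by
  unfold sq
  refine Continuous.subtype_mk ?_ _
  refine Continuous.div (by fun_prop) (by fun_prop) ?_
  intro t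
  have : 0 ≤ max t 0 := le_max_right _ _
  positivity

lemma sq_le_abs (t : ℝ) : (sq t : ℝ) ≤ |t| := by
  have h0 : 0 ≤ max t 0 := le_max_right _ _
  have h1 : max t 0 ≤ |t| := max_le (le_abs_self t) (abs_nonneg t)
  refine le_trans ?_ h1
  unfold sq
  simp only
  rw [div_le_iff₀ (by positivity)]
  nlinarith

lemma sq_lt_one (t : ℝ) : (sq t : ℝ) < 1 := by
  have h0 : 0 ≤ max t 0 := le_max_right _ _
  unfold sq
  simp only
  rw [div_lt_one (by positivity)]
  linarith

/-- recovering a real number from the squeezed parts -/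
lemma unsq (t : ℝ) : (sq t : ℝ) / (1 - sq t) - (sq (-t) : ℝ) / (1 - sq (-t)) = t := by
  have key : ∀ r : ℝ, (sq r : ℝ) / (1 - sq r) = max r 0 := by
    intro r
    have h0 : 0 ≤ max r 0 := le_max_right _ _
    unfold sq
    simp only
    have h1 : (1 + max r 0) ≠ 0 := by positivity
    have h2 : 1 - max r 0 / (1 + max r 0) = 1 / (1 + max r 0) := by
      field_simp
      ring
    rw [h2]
    field_simp
  rw [key, key]
  rcases le_total t 0 with h | h
  · rw [max_eq_right h, max_eq_left (by linarith)]
    ring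
  · rw [max_eq_left h, max_eq_right (by linarith)]
    ring

theorem exists_zeroDim {X : Type} [TopologicalSpace X] {Γ : Type} (e : X → (Γ → ℝ))
    (he : IsInducing e) (h0 : ∀ x, Tendsto (e x) cofinite (𝓝 0)) :
    ∃ (I X' : Type) (_ : TopologicalSpace X') (s : X' → Set I) (rk : I → ℕ) (π : X' → X),
      Str s rk ∧ IsProperMap π ∧ Function.Surjective π := by
  classical
  let φ : X → (Γ × Bool → unitInterval) := fun x γ => sq (if γ.2 then e x γ.1 else -(e x γ.1))
  have hec : ∀ γ, Continuous fun x => e x γ := fun γ => (continuous_apply γ).comp he.continuous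
  have hφc : ∀ γ, Continuous fun x => φ x γ := by
    rintro ⟨γ, b⟩
    refine continuous_sq.comp ?_
    cases b
    · have := (hec γ).neg
      simp only [Bool.false_eq_true, if_false]
      exact this
    · simpa using hec γ
  have hφi : ∀ x, comap φ (𝓝 (φ x)) ≤ 𝓝 x := by
    intro x
    rw [he.nhds_eq_comap x, ← tendsto_iff_comap]
    rw [tendsto_pi_nhds]
    intro γ
    have h1 : Tendsto φ (comap φ (𝓝 (φ x))) (𝓝 (φ x)) := tendsto_comap
    have h2 : ∀ b, Tendsto (fun x' => (φ x' (γ, b) : ℝ)) (comap φ (𝓝 (φ x)))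
        (𝓝 (φ x (γ, b) : ℝ)) := by
      intro b
      have h3 := (continuous_apply (γ, b)).continuousAt.tendsto.comp h1
      exact (continuous_subtype_val.tendsto _).comp h3
    have h4 := ((h2 true).div ((h2 true).const_sub 1) (by
        have : (φ x (γ, true) : ℝ) < 1 := sq_lt_one _
        intro hcon
        linarith)).sub ((h2 false).div ((h2 false).const_sub 1) (by
        have : (φ x (γ, false) : ℝ) < 1 := sq_lt_one _
        intro hcon
        linarith))
    have h5 : ∀ x', (φ x' (γ, true) : ℝ) / (1 - φ x' (γ, true)) -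
        (φ x' (γ, false) : ℝ) / (1 - φ x' (γ, false)) = e x' γ := by
      intro x'
      simp only [φ, if_true, Bool.false_eq_true, if_false]
      exact unsq _
    rw [← h5 x]
    refine h4.congr ?_
    intro x'
    rw [← h5 x']
    rfl
  let C := {w : X × ((Γ × Bool) × ℕ → Bool) |
    ∀ γ, φ w.1 γ = Real.fromBinary (fun n => w.2 (γ, n))}
  have hCc : IsClosed C := by
    have : C = ⋂ γ, {w : X × ((Γ × Bool) × ℕ → Bool) |
        φ w.1 γ = Real.fromBinary (fun n => w.2 (γ, n))} := by
      ext w; simp [C]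
    rw [this]
    refine isClosed_iInter fun γ => isClosed_eq ((hφc γ).comp continuous_fst) ?_
    exact Real.fromBinary_continuous.comp (continuous_pi fun n =>
      (continuous_apply (γ, n)).comp continuous_snd)
  refine ⟨(Γ × Bool) × ℕ, C, inferInstance, fun w => {i | w.1.2 i = true}, fun i => i.2,
    fun w => w.1.1, ⟨?_, ?_, ?_, ?_⟩, ?_, ?_⟩
  · -- fin
    rintro ⟨⟨x, z⟩, hw⟩ n
    have hfin : {γ : Γ × Bool | ((1 : ℝ) / 2) ^ (n + 1) ≤ (φ x γ : ℝ)}.Finite := by
      have h1 : {γ : Γ | ((1 : ℝ) / 2) ^ (n + 1) ≤ |e x γ|}.Finite := by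
        have h2 := (Metric.tendsto_nhds.1 (h0 x)) (((1 : ℝ) / 2) ^ (n + 1)) (by positivity)
        rw [eventually_cofinite] at h2
        refine h2.subset ?_
        intro γ hγ
        simpa using hγ
      refine (h1.prod (finite_univ (α := Bool))).subset ?_
      rintro ⟨γ, b⟩ hγ
      refine ⟨?_, mem_univ _⟩
      have hγ' : ((1 : ℝ) / 2) ^ (n + 1) ≤ (φ x (γ, b) : ℝ) := hγ
      refine le_trans hγ' ?_
      refine (sq_le_abs _).trans ?_
      cases b <;> simp
    refine (((finite_Iic n).biUnion (t := fun m => (fun γ => (γ, m)) ''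
      {γ : Γ × Bool | ((1 : ℝ) / 2) ^ (n + 1) ≤ (φ x γ : ℝ)}) fun m _ => hfin.image _)).subset ?_
    rintro ⟨γ, m⟩ ⟨hz, hm⟩
    simp only at hm
    refine mem_biUnion (x := m) hm ⟨γ, ?_, rfl⟩
    have h2 := le_fromBinary (fun n => z (γ, n)) m hz
    have h3 := hw γ
    simp only at h3
    simp only [mem_setOf_eq]
    rw [h3]
    refine le_trans ?_ h2
    exact pow_le_pow_of_le_one (by norm_num) (by norm_num) (by omega)
  · intro i
    have hc : Continuous fun w : C => w.1.2 i :=
      (continuous_apply i).comp (continuous_snd.comp continuous_subtype_val)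
    exact (isOpen_discrete ({true} : Set Bool)).preimage hc
  · intro i
    have hc : Continuous fun w : C => w.1.2 i :=
      (continuous_apply i).comp (continuous_snd.comp continuous_subtype_val)
    exact (isClosed_discrete ({true} : Set Bool)).preimage hc
  · intro w U hU hwU
    -- the topology of `C` is induced by the second coordinate
    have hind : comap (fun w : C => w.1.2) (𝓝 w.1.2) ≤ 𝓝 w := by
      rw [nhds_subtype_eq_comap, nhds_prod_eq, SProd.sprod, Filter.instSProd]
      change _ ≤ comap Subtype.val (comap Prod.fst (𝓝 w.1.1) ⊓ comap Prod.snd (𝓝 w.1.2))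
      rw [comap_inf, comap_comap, comap_comap]
      refine le_inf ?_ le_rfl
      refine le_trans ?_ (comap_mono (hφi w.1.1))
      rw [comap_comap]
      rw [← tendsto_iff_comap]
      rw [tendsto_pi_nhds]
      intro γ
      have h1 : ∀ w : C, (φ ∘ Prod.fst ∘ Subtype.val) w γ =
          Real.fromBinary (fun n => w.1.2 (γ, n)) := fun w => w.2 γ
      have h2 : Tendsto (fun w : C => Real.fromBinary (fun n => w.1.2 (γ, n)))
          (comap (fun w : C => w.1.2) (𝓝 w.1.2)) (𝓝 (Real.fromBinary (fun n => w.1.2 (γ, n)))) := by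
        have h3 : Continuous fun z : (Γ × Bool) × ℕ → Bool =>
            Real.fromBinary (fun n => z (γ, n)) :=
          Real.fromBinary_continuous.comp (continuous_pi fun n => continuous_apply (γ, n))
        exact (h3.tendsto w.1.2).comp tendsto_comap
      have h4 : φ w.1.1 γ = Real.fromBinary (fun n => w.1.2 (γ, n)) := w.2 γ
      rw [h4]
      refine h2.congr ?_
      intro w'
      exact (h1 w').symm
    have hUn : U ∈ comap (fun w : C => w.1.2) (𝓝 w.1.2) := hind (hU.mem_nhds hwU)
    obtain ⟨V, hV, hVU⟩ := mem_comap.1 hUn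
    obtain ⟨V', hV'V, hV'o, hwV'⟩ := mem_nhds_iff.1 hV
    obtain ⟨J, v, hJ1, hJ2⟩ := isOpen_pi_iff.1 hV'o w.1.2 hwV'
    refine ⟨J.filter fun i => w.1.2 i = true, J.filter fun i => w.1.2 i = false, ?_, ?_, ?_⟩
    · intro i hi
      exact (Finset.mem_filter.1 hi).2
    · intro i hi hi'
      have := (Finset.mem_filter.1 hi).2
      simp only [mem_setOf_eq] at hi'
      rw [this] at hi'
      exact Bool.false_ne_true hi'
    · intro w' h1 h2
      apply hVU
      apply hV'V
      apply hJ2
      intro i hi
      have hi' : i ∈ J := hi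
      have heq : w'.1.2 i = w.1.2 i := by
        cases hb : w.1.2 i
        · have := h2 i (Finset.mem_filter.2 ⟨hi', hb⟩)
          simpa using this
        · exact h1 i (Finset.mem_filter.2 ⟨hi', hb⟩)
      change w'.1.2 i ∈ v i
      rw [heq]
      exact (hJ1 i hi').2
  · exact isProperMap_fst_of_compactSpace.comp hCc.isClosedEmbedding_subtypeVal.isProperMap
  · intro x
    choose z hz using fun γ => Real.fromBinary_surjective (φ x γ)
    exact ⟨⟨(x, fun i => z i.1 i.2), fun γ => (hz γ).symm⟩, rfl⟩

end Pool.Agent.Lib37
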