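import Mathlib

set_option autoImplicit false
open Set Cardinal

namespace Pool.Agent.Lib37

section closure

variable {S : Type} (op : Finset S → Set S)

/-- `Q` is closed under the finitary, countably valued operations `op`. -/
def Closd (Q : Set S) : Prop := ∀ t : Finset S, (↑t : Set S) ⊆ Q → op t ⊆ Q

/-- The smallest `op`-closed set containing `A`. -/
def cl (A : Set S) : Set S := ⋂₀ {Q | Closd op Q ∧ A ⊆ Q}

lemma subset_cl (A : Set S) : A ⊆ cl op A := by
  intro s hs Q hQ
  exact hQ.2 hs

lemma closd_cl (A : Set S) : Closd op (cl op A) := by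
  intro t ht s hs Q hQ
  exact hQ.1 t (fun x hx => ht hx Q hQ) hs

variable {op}

lemma cl_min {A Q : Set S} (hQ : Closd op Q) (h : A ⊆ Q) : cl op A ⊆ Q :=
  fun _ hs => hs Q ⟨hQ, h⟩

lemma cl_mono {A B : Set S} (h : A ⊆ B) : cl op A ⊆ cl op B :=
  cl_min (closd_cl op B) (h.trans (subset_cl op B))

lemma Closd.inter {P Q : Set S} (hP : Closd op P) (hQ : Closd op Q) : Closd op (P ∩ Q) :=
  fun t ht _ hs => ⟨hP t (fun _ hx => (ht hx).1) hs, hQ t (fun _ hx => (ht hx).2) hs⟩

lemma mem_cl_finite {A : Set S} {s : S} (h : s ∈ cl op A) :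
    ∃ t : Finset S, (↑t : Set S) ⊆ A ∧ s ∈ cl op (↑t : Set S) := by
  classical
  have hcl : Closd op {s | ∃ t : Finset S, (↑t : Set S) ⊆ A ∧ s ∈ cl op (↑t : Set S)} := by
    intro u hu s hs
    choose! f hf1 hf2 using hu
    refine ⟨u.biUnion f, ?_, ?_⟩
    · intro x hx
      simp only [Finset.coe_biUnion, Finset.mem_coe, mem_iUnion, exists_prop] at hx
      obtain ⟨i, hi, hx⟩ := hx
      exact hf1 hi hx
    · apply closd_cl op _ u _ hs
      intro x hx
      refine cl_mono ?_ (hf2 hx)
      intro z hz
      simp only [Finset.coe_biUnion, Finset.mem_coe, mem_iUnion, exists_prop]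
      exact ⟨x, hx, hz⟩
  refine cl_min hcl ?_ h
  intro x hx
  exact ⟨{x}, by simpa using hx, subset_cl op _ (by simp)⟩

lemma finset_subset_cl {A : Set S} {t : Finset S} (h : (↑t : Set S) ⊆ cl op A) :
    ∃ t' : Finset S, (↑t' : Set S) ⊆ A ∧ (↑t : Set S) ⊆ cl op (↑t' : Set S) := by
  classical
  have h2 : ∀ x ∈ t, ∃ t' : Finset S, (↑t' : Set S) ⊆ A ∧ x ∈ cl op (↑t' : Set S) :=
    fun x hx => mem_cl_finite (h hx)
  choose! f hf1 hf2 using h2
  refine ⟨t.biUnion f, ?_, ?_⟩
  · intro x hx
    simp only [Finset.coe_biUnion, Finset.mem_coe, mem_iUnion, exists_prop] at hx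
    obtain ⟨i, hi, hx⟩ := hx
    exact hf1 i hi hx
  · intro x hx
    refine cl_mono ?_ (hf2 x hx)
    intro z hz
    simp only [Finset.coe_biUnion, Finset.mem_coe, mem_iUnion, exists_prop]
    exact ⟨x, hx, hz⟩

lemma cl_union_cl (A T : Set S) : cl op (cl op A ∪ T) = cl op (A ∪ T) := by
  apply Subset.antisymm
  · apply cl_min (closd_cl op _)
    apply union_subset
    · exact cl_mono subset_union_left
    · exact subset_union_right.trans (subset_cl op _)
  · exact cl_mono (union_subset_union_left _ (subset_cl op _))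

lemma mk_cl_le (hop : ∀ t, (op t).Countable) (A : Set S) : #(cl op A) ≤ max #A ℵ₀ := by
  classical
  let step : Set S → Set S := fun B => B ∪ ⋃ t : {t : Finset S // (↑t : Set S) ⊆ B}, op t.1
  let it : ℕ → Set S := fun n => step^[n] A
  have hit : ∀ n, it (n+1) = step (it n) := by
    intro n
    simp only [it, Function.iterate_succ', Function.comp]
  have hmono1 : ∀ n, it n ⊆ it (n+1) := by
    intro n
    rw [hit]
    exact subset_union_left
  have hmono : Monotone it := monotone_nat_of_le_succ hmono1
  have hcard : ∀ n, #(it n) ≤ max #A ℵ₀ := by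
    intro n
    induction n with
    | zero => exact le_max_left _ _
    | succ n ih =>
      rw [hit]
      refine (mk_union_le _ _).trans ?_
      have h1 : #(⋃ t : {t : Finset S // (↑t : Set S) ⊆ it n}, op t.1) ≤ max #A ℵ₀ := by
        refine (mk_iUnion_le _).trans ?_
        have h2 : #{t : Finset S // (↑t : Set S) ⊆ it n} ≤ max #A ℵ₀ := by
          have : #{t : Finset S // (↑t : Set S) ⊆ it n} ≤ #(Finset (it n)) := by
            refine mk_le_of_injective (f := fun t => t.1.subtype (· ∈ it n)) ?_
            intro t t' htt'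
            have := congrArg (fun u => u.map (Function.Embedding.subtype (· ∈ it n))) htt'
            simp only [] at this
            rw [Finset.subtype_map_of_mem (fun x hx => t.2 hx),
              Finset.subtype_map_of_mem (fun x hx => t'.2 hx)] at this
            exact Subtype.ext this
          refine this.trans ?_
          rcases finite_or_infinite (it n) with h | h
          · exact (lt_aleph0_of_finite _).le.trans (le_max_right _ _)
          · rw [mk_finset_of_infinite]
            exact ih
        have h3 : (⨆ t : {t : Finset S // (↑t : Set S) ⊆ it n}, #(op t.1)) ≤ ℵ₀ := by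
          apply ciSup_le'
          intro t
          exact (hop t.1).le_aleph0
        calc #{t : Finset S // (↑t : Set S) ⊆ it n} * (⨆ t : {t : Finset S // (↑t : Set S) ⊆ it n}, #(op t.1))
            ≤ max #A ℵ₀ * max #A ℵ₀ := mul_le_mul' h2 (h3.trans (le_max_right _ _))
          _ = max #A ℵ₀ := mul_eq_self (le_max_right _ _)
      calc #(it n) + #(⋃ t : {t : Finset S // (↑t : Set S) ⊆ it n}, op t.1)
          ≤ max #A ℵ₀ + max #A ℵ₀ := add_le_add ih h1
        _ = max #A ℵ₀ := add_eq_self (le_max_right _ _)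
  have hclosed : Closd op (⋃ n, it n) := by
    intro t ht
    have : ∃ n, (↑t : Set S) ⊆ it n := by
      have hd : Directed (· ⊆ ·) it := hmono.directed_le
      exact hd.exists_mem_subset_of_finset_subset_biUnion ht
    obtain ⟨n, hn⟩ := this
    intro s hs
    refine mem_iUnion.2 ⟨n+1, ?_⟩
    rw [hit]
    exact Or.inr (mem_iUnion.2 ⟨⟨t, hn⟩, hs⟩)
  have hsub : cl op A ⊆ ⋃ n, it n := cl_min hclosed (subset_iUnion it 0)
  refine (mk_le_mk_of_subset hsub).trans ?_
  refine (mk_iUnion_le_sum_mk).trans ?_
  calc sum (fun n => #(it n)) ≤ sum (fun _ : ℕ => max #A ℵ₀) := sum_le_sum _ _ hcard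
    _ = ℵ₀ * max #A ℵ₀ := by simp
    _ ≤ max #A ℵ₀ * max #A ℵ₀ := mul_le_mul' (le_max_right _ _) le_rfl
    _ = max #A ℵ₀ := mul_eq_self (le_max_right _ _)

lemma countable_cl (hop : ∀ t, (op t).Countable) {A : Set S} (hA : A.Countable) :
    (cl op A).Countable := by
  rw [← le_aleph0_iff_set_countable]
  exact (mk_cl_le hop A).trans (max_le hA.le_aleph0 le_rfl)

/-- A Davies tree type decomposition of `N` over the finite set `𝕄` of closed sets. -/
theorem davies (hop : ∀ t, (op t).Countable) (N : Set S) (hN : Closd op N)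
    (𝕄 : Set (Set S)) (h𝕄 : 𝕄.Finite) (h𝕄c : ∀ M ∈ 𝕄, Closd op M) :
    ∃ 𝒥 : Set (Set S × Set (Set S)),
      (∀ p ∈ 𝒥, p.1.Countable ∧ Closd op p.1 ∧ p.1 ⊆ N ∧ p.2.Finite ∧ 𝕄 ⊆ p.2 ∧
        ∀ M ∈ p.2, Closd op M) ∧
      (∀ t T : Set S, t.Finite →
        {p | p ∈ 𝒥 ∧ ∀ M ∈ p.2, ∃ i ∈ t, i ∈ cl op (p.1 ∪ T) ∧ i ∉ cl op (M ∪ T)}.Finite) ∧
      (∀ T W : Set S, (∀ M ∈ 𝕄, cl op (M ∪ T) ⊆ W) →
        (∀ p ∈ 𝒥, (∀ M ∈ p.2, cl op (M ∪ T) ⊆ W) → cl op (p.1 ∪ T) ⊆ W) →
          cl op (N ∪ T) ⊆ W) := by
  classical
  induction hκ : #N using WellFoundedLT.induction generalizing N 𝕄 with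
  | _ κ ih =>
  by_cases hc : N.Countable
  · refine ⟨{(N, 𝕄)}, ?_, ?_, ?_⟩
    · rintro p rfl
      exact ⟨hc, hN, Subset.rfl, h𝕄, Subset.rfl, h𝕄c⟩
    · intro t T ht
      exact (finite_singleton (N, 𝕄)).subset (fun p hp => hp.1)
    · intro T W h1 h2
      exact h2 (N, 𝕄) rfl h1
  · have hunc : ℵ₀ < κ := by
      rw [← hκ]
      by_contra h
      exact hc (le_aleph0_iff_set_countable.1 (not_lt.1 h))
    obtain ⟨r, wo, hr⟩ := Cardinal.exists_ord_eq N
    let lo : N → Set S := fun s => {x | ∃ s' : N, r s' s ∧ (s' : S) = x}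
    let Nlt : N → Set S := fun s => cl op (lo s)
    let Nle : N → Set S := fun s => cl op (insert (s : S) (lo s))
    have hlo : ∀ s, #(lo s) < κ := by
      intro s
      have h1 : #{ y // r y s } < #N := by
        have := card_typein_lt s hr
        rwa [Ordinal.card_typein] at this
      have h2 : #(lo s) ≤ #{ y // r y s } := by
        refine mk_le_of_surjective (f := fun y => ⟨(y.1 : S), y.1, y.2, rfl⟩) ?_
        rintro ⟨x, s', hs', rfl⟩
        exact ⟨⟨s', hs'⟩, rfl⟩
      rw [← hκ]
      exact h2.trans_lt h1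
    have hNle : ∀ s, #(Nle s) < κ := by
      intro s
      refine (mk_cl_le hop _).trans_lt (max_lt ?_ hunc)
      refine (mk_insert_le).trans_lt ?_
      exact add_lt_of_lt hunc.le (hlo s) (one_lt_aleph0.trans hunc)
    have hloN : ∀ s, lo s ⊆ N := by
      rintro s _ ⟨s', _, rfl⟩
      exact s'.2
    have hNleN : ∀ s, Nle s ⊆ N := fun s => cl_min hN (insert_subset s.2 (hloN s))
    have hNltle : ∀ s s', r s s' → Nle s ⊆ Nlt s' := by
      intro s s' hss'
      refine cl_mono ?_
      refine insert_subset ⟨s, hss', rfl⟩ ?_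
      rintro _ ⟨u, hu, rfl⟩
      exact ⟨u, _root_.trans_of r hu hss', rfl⟩
    have key : ∀ s : N, ∃ 𝒥 : Set (Set S × Set (Set S)),
      (∀ p ∈ 𝒥, p.1.Countable ∧ Closd op p.1 ∧ p.1 ⊆ Nle s ∧ p.2.Finite ∧ insert (Nlt s) 𝕄 ⊆ p.2 ∧
        ∀ M ∈ p.2, Closd op M) ∧
      (∀ t T : Set S, t.Finite →
        {p | p ∈ 𝒥 ∧ ∀ M ∈ p.2, ∃ i ∈ t, i ∈ cl op (p.1 ∪ T) ∧ i ∉ cl op (M ∪ T)}.Finite) ∧
      (∀ T W : Set S, (∀ M ∈ insert (Nlt s) 𝕄, cl op (M ∪ T) ⊆ W) →
        (∀ p ∈ 𝒥, (∀ M ∈ p.2, cl op (M ∪ T) ⊆ W) → cl op (p.1 ∪ T) ⊆ W) →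
          cl op (Nle s ∪ T) ⊆ W) := by
      intro s
      refine ih (#(Nle s)) (hNle s) (Nle s) (closd_cl op _) (insert (Nlt s) 𝕄) (h𝕄.insert _) ?_ rfl
      intro M hM
      rcases hM with rfl | hM
      · exact closd_cl op _
      · exact h𝕄c M hM
    choose J hJ1 hJ2 hJ3 using key
    refine ⟨insert (cl op ∅, 𝕄) (⋃ s, J s), ?_, ?_, ?_⟩
    · rintro p (rfl | hp)
      · exact ⟨countable_cl hop countable_empty, closd_cl op _, cl_min hN (empty_subset _), h𝕄,
          Subset.rfl, h𝕄c⟩
      · obtain ⟨s, hs⟩ := mem_iUnion.1 hp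
        obtain ⟨h1, h2, h3, h4, h5, h6⟩ := hJ1 s p hs
        exact ⟨h1, h2, h3.trans (hNleN s), h4, (subset_insert _ _).trans h5, h6⟩
    · intro t T ht
      have hfin : {s : N | ∃ i ∈ t, i ∈ cl op (Nle s ∪ T) ∧ i ∉ cl op (Nlt s ∪ T)}.Finite := by
        have : {s : N | ∃ i ∈ t, i ∈ cl op (Nle s ∪ T) ∧ i ∉ cl op (Nlt s ∪ T)} ⊆
          ⋃ i ∈ t, {s : N | i ∈ cl op (Nle s ∪ T) ∧ i ∉ cl op (Nlt s ∪ T)} := by
          rintro s ⟨i, hi, h⟩
          exact mem_biUnion hi h
        refine (ht.biUnion fun i _ => ?_).subset this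
        apply Set.Subsingleton.finite
        intro s hs s' hs'
        rcases trichotomous_of r s s' with h | h | h
        · exact absurd (cl_mono (union_subset_union_left _ (hNltle s s' h)) hs.1) hs'.2
        · exact h
        · exact absurd (cl_mono (union_subset_union_left _ (hNltle s' s h)) hs'.1) hs.2
      refine (((finite_singleton (cl op ∅, 𝕄))).union
        (hfin.biUnion (t := fun s => {p | p ∈ J s ∧ ∀ M ∈ p.2, ∃ i ∈ t, i ∈ cl op (p.1 ∪ T) ∧
          i ∉ cl op (M ∪ T)}) fun s _ => hJ2 s t T ht)).subset ?_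
      rintro p ⟨hp | hp, hp2⟩
      · exact Or.inl hp
      · right
        obtain ⟨s, hs⟩ := mem_iUnion.1 hp
        refine mem_biUnion (x := s) ?_ ⟨hs, hp2⟩
        obtain ⟨h1, h2, h3, h4, h5, h6⟩ := hJ1 s p hs
        obtain ⟨i, hi, hi1, hi2⟩ := hp2 (Nlt s) (h5 (mem_insert _ _))
        exact ⟨i, hi, cl_mono (union_subset_union_left _ h3) hi1, hi2⟩
    · intro T W h1 h2
      have h0 : cl op T ⊆ W := by
        have := h2 (cl op ∅, 𝕄) (mem_insert _ _) h1
        rwa [cl_union_cl, empty_union] at this
      have hall : ∀ s, cl op (Nle s ∪ T) ⊆ W := by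
        intro s
        induction s using wo.wf.induction with
        | _ s ihs =>
        refine hJ3 s T W ?_ (fun p hp => h2 p (Or.inr (mem_iUnion.2 ⟨s, hp⟩)))
        intro M hM
        rcases hM with rfl | hM
        · rw [cl_union_cl]
          intro x hx
          obtain ⟨t, ht, hxt⟩ := mem_cl_finite hx
          -- the elements of `t` lying in `lo s`
          have : ∃ s' : Option N, (∀ u ∈ s', r u s) ∧ (↑t : Set S) ⊆
              (match s' with | none => T | some u => Nle u ∪ T) := by
            clear hxt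
            induction t using Finset.induction_on with
            | empty => exact ⟨none, by simp, by simp⟩
            | insert a t ha iht =>
              obtain ⟨s', hs', hs''⟩ := iht (fun z hz => ht (by simp [Finset.mem_coe.1 hz]))
              have hat : a ∈ lo s ∪ T := ht (by simp)
              rcases hat with ⟨v, hv, hva⟩ | haT
              · subst hva
                match s' with
                | none =>
                  refine ⟨some v, by simpa using hv, ?_⟩
                  intro z hz
                  rcases Finset.mem_insert.1 (Finset.mem_coe.1 hz) with rfl | hz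
                  · exact Or.inl (subset_cl op _ (mem_insert _ _))
                  · exact Or.inr (hs'' hz)
                | some u =>
                  rcases trichotomous_of r u v with h | h | h
                  · refine ⟨some v, by simpa using hv, ?_⟩
                    intro z hz
                    rcases Finset.mem_insert.1 (Finset.mem_coe.1 hz) with rfl | hz
                    · exact Or.inl (subset_cl op _ (mem_insert _ _))
                    · rcases hs'' hz with h' | h'
                      · left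
                        exact (hNltle u v h |>.trans (cl_mono (subset_insert _ _))) h'
                      · exact Or.inr h'
                  · subst h
                    refine ⟨some u, by simpa using hv, ?_⟩
                    intro z hz
                    rcases Finset.mem_insert.1 (Finset.mem_coe.1 hz) with rfl | hz
                    · exact Or.inl (subset_cl op _ (mem_insert _ _))
                    · exact hs'' hz
                  · refine ⟨some u, hs', ?_⟩
                    intro z hz
                    rcases Finset.mem_insert.1 (Finset.mem_coe.1 hz) with rfl | hz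
                    · exact Or.inl (subset_cl op _ (mem_insert_of_mem _ ⟨v, h, rfl⟩))
                    · exact hs'' hz
              · refine ⟨s', hs', ?_⟩
                intro z hz
                rcases Finset.mem_insert.1 (Finset.mem_coe.1 hz) with rfl | hz
                · match s' with
                  | none => exact haT
                  | some u => exact Or.inr haT
                · exact hs'' hz
          obtain ⟨s', hs', hs''⟩ := this
          match s' with
          | none => exact h0 (cl_mono hs'' hxt)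
          | some u => exact ihs u (hs' u rfl) (cl_mono hs'' hxt)
        · exact h1 M hM
      intro x hx
      obtain ⟨t, ht, hxt⟩ := mem_cl_finite hx
      by_cases hne : Nonempty N
      · -- take a bound
        have hd : Directed (· ⊆ ·) (fun s : N => Nle s ∪ T) := by
          intro s s'
          rcases trichotomous_of r s s' with h | h | h
          · exact ⟨s', union_subset_union_left _ ((hNltle s s' h).trans
              (cl_mono (subset_insert _ _))), Subset.rfl⟩
          · exact ⟨s', by rw [h], Subset.rfl⟩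
          · exact ⟨s, Subset.rfl, union_subset_union_left _ ((hNltle s' s h).trans
              (cl_mono (subset_insert _ _)))⟩
        have ht' : (↑t : Set S) ⊆ ⋃ s : N, (Nle s ∪ T) := by
          intro z hz
          rcases ht hz with h | h
          · exact mem_iUnion.2 ⟨⟨z, h⟩, Or.inl (subset_cl op _ (mem_insert _ _))⟩
          · exact mem_iUnion.2 ⟨Classical.choice hne, Or.inr h⟩
        obtain ⟨s, hs⟩ := hd.exists_mem_subset_of_finset_subset_biUnion ht'
        exact hall s (cl_mono hs hxt)
      · exfalso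
        apply hc
        rw [not_nonempty_iff, isEmpty_coe_sort] at hne
        rw [hne]
        exact countable_empty

end closure

end Pool.Agent.Lib37
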