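import Mathlib
import Pool.Agent.Lib37.Davies
import Pool.Agent.Lib37.Basic

set_option autoImplicit false
open Set Topology Filter

namespace Pool.Agent.Lib37

section ops

variable {I X Y : Type} [TopologicalSpace X] [TopologicalSpace Y]

/-- finite unions of boxes -/
def Usys (s : X → Set I) (𝔅 : Finset (Finset I × Finset I)) : Set X :=
  {x | ∃ p ∈ 𝔅, x ∈ box s p.1 p.2}

/-- elements of `I` occurring in `c` -/
def elts (c : Finset (I ⊕ I)) : Set (I ⊕ C(Y, unitInterval)) :=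
  {j | ∃ i, (Sum.inl i ∈ c ∨ Sum.inr i ∈ c) ∧ j = Sum.inl i}

lemma countable_elts (c : Finset (I ⊕ I)) : (elts (Y := Y) c).Countable := by
  classical
  refine ((c.image (Sum.elim id id)).countable_toSet.image Sum.inl).mono ?_
  rintro j ⟨i, hi, rfl⟩
  refine ⟨i, ?_, rfl⟩
  simp only [Finset.coe_image, mem_image, Finset.mem_coe]
  rcases hi with hi | hi
  · exact ⟨_, hi, rfl⟩
  · exact ⟨_, hi, rfl⟩

/-- a Urysohn function, when there is one -/
noncomputable def ur (f : X → Y) (s : X → Set I) (a b : Finset I)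
    (𝔅 : Finset (Finset I × Finset I)) : C(Y, unitInterval) := by
  classical
  exact if h : ∃ g : C(Y, unitInterval), (∀ x ∈ box s a b, g (f x) = 1) ∧
      ∀ y, g y ≠ 0 → ∀ x, f x = y → x ∈ Usys s 𝔅 then h.choose else 0

lemma ur_spec {f : X → Y} {s : X → Set I} {a b : Finset I} {𝔅 : Finset (Finset I × Finset I)}
    (h : ∃ g : C(Y, unitInterval), (∀ x ∈ box s a b, g (f x) = 1) ∧
      ∀ y, g y ≠ 0 → ∀ x, f x = y → x ∈ Usys s 𝔅) :
    (∀ x ∈ box s a b, ur f s a b 𝔅 (f x) = 1) ∧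
      ∀ y, ur f s a b 𝔅 y ≠ 0 → ∀ x, f x = y → x ∈ Usys s 𝔅 := by
  classical
  unfold ur
  rw [dif_pos h]
  exact h.choose_spec

/-- the function `(2/3 - g)⁺` -/
noncomputable def cmp (g : C(Y, unitInterval)) : C(Y, unitInterval) :=
  ⟨fun y => ⟨max 0 (2/3 - (g y : ℝ)), le_max_left _ _, by
    have := (g y).2.1
    apply max_le <;> linarith⟩, by fun_prop⟩

lemma cmp_apply (g : C(Y, unitInterval)) (y : Y) :
    ((cmp g y : unitInterval) : ℝ) = max 0 (2/3 - (g y : ℝ)) := rfl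

/-- The finitary operations. -/
def opS (f : X → Y) (s : X → Set I) (t : Finset (I ⊕ C(Y, unitInterval))) :
    Set (I ⊕ C(Y, unitInterval)) :=
  {j | ∃ (a : Finset I) (𝔅 : Finset (Finset I × Finset I)), a ⊆ t.toLeft ∧
      (∀ p ∈ 𝔅, p.1 ⊆ t.toLeft ∧ p.2 ⊆ t.toLeft) ∧
      ∃ c, MinHits (Zf f s a (Usys s 𝔅)) c ∧ j ∈ elts c} ∪
  {j | ∃ (a : Finset I) (g : C(Y, unitInterval)), a ⊆ t.toLeft ∧ g ∈ t.toRight ∧
      ∃ c, MinHits (Zf f s a {x | 2/3 < (g (f x) : ℝ)}) c ∧ j ∈ elts c} ∪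
  {j | ∃ (a b : Finset I) (𝔅 : Finset (Finset I × Finset I)), a ⊆ t.toLeft ∧ b ⊆ t.toLeft ∧
      (∀ p ∈ 𝔅, p.1 ⊆ t.toLeft ∧ p.2 ⊆ t.toLeft) ∧ j = Sum.inr (ur f s a b 𝔅)} ∪
  {j | ∃ g ∈ t.toRight, j = Sum.inr (cmp g)}

variable {s : X → Set I} {rk : I → ℕ} {f : X → Y}

lemma countable_opS (hs : Str s rk) (t : Finset (I ⊕ C(Y, unitInterval))) :
    (opS f s t).Countable := by
  classical
  have hsub : ∀ 𝔅 : Finset (Finset I × Finset I), (∀ p ∈ 𝔅, p.1 ⊆ t.toLeft ∧ p.2 ⊆ t.toLeft) →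
      𝔅 ∈ (↑(t.toLeft.powerset ×ˢ t.toLeft.powerset).powerset :
        Set (Finset (Finset I × Finset I))) := by
    intro 𝔅 h
    rw [Finset.mem_coe, Finset.mem_powerset]
    intro p hp
    rw [Finset.mem_product, Finset.mem_powerset, Finset.mem_powerset]
    exact h p hp
  refine Countable.union (Countable.union (Countable.union ?_ ?_) ?_) ?_
  · have h1 : (⋃ a ∈ (↑t.toLeft.powerset : Set (Finset I)),
        ⋃ 𝔅 ∈ (↑(t.toLeft.powerset ×ˢ t.toLeft.powerset).powerset :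
          Set (Finset (Finset I × Finset I))),
        ⋃ c ∈ {c | MinHits (Zf f s a (Usys s 𝔅)) c}, elts (Y := Y) c).Countable := by
      refine Countable.biUnion (Finset.countable_toSet _) fun a _ => ?_
      refine Countable.biUnion (Finset.countable_toSet _) fun 𝔅 _ => ?_
      refine Countable.biUnion ?_ fun c _ => countable_elts c
      exact countable_minHits (Sum.elim rk rk) _ (fun σ hσ r => hs.fin_Zf a _ σ hσ r)
    refine h1.mono ?_
    rintro j ⟨a, 𝔅, ha, h𝔅, c, hc, hj⟩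
    refine mem_biUnion (x := a) (by simpa using ha) ?_
    refine mem_biUnion (x := 𝔅) (hsub 𝔅 h𝔅) ?_
    exact mem_biUnion (x := c) hc hj
  · have h1 : (⋃ a ∈ (↑t.toLeft.powerset : Set (Finset I)),
        ⋃ g ∈ (↑t.toRight : Set C(Y, unitInterval)),
        ⋃ c ∈ {c | MinHits (Zf f s a {x | 2/3 < (g (f x) : ℝ)}) c}, elts (Y := Y) c).Countable := by
      refine Countable.biUnion (Finset.countable_toSet _) fun a _ => ?_
      refine Countable.biUnion (Finset.countable_toSet _) fun g _ => ?_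
      refine Countable.biUnion ?_ fun c _ => countable_elts c
      exact countable_minHits (Sum.elim rk rk) _ (fun σ hσ r => hs.fin_Zf a _ σ hσ r)
    refine h1.mono ?_
    rintro j ⟨a, g, ha, hg, c, hc, hj⟩
    refine mem_biUnion (x := a) (by simpa using ha) ?_
    refine mem_biUnion (x := g) hg ?_
    exact mem_biUnion (x := c) hc hj
  · have h1 : (⋃ a ∈ (↑t.toLeft.powerset : Set (Finset I)),
        ⋃ b ∈ (↑t.toLeft.powerset : Set (Finset I)),
        ⋃ 𝔅 ∈ (↑(t.toLeft.powerset ×ˢ t.toLeft.powerset).powerset :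
          Set (Finset (Finset I × Finset I))),
        ({Sum.inr (ur f s a b 𝔅)} : Set (I ⊕ C(Y, unitInterval)))).Countable := by
      refine Countable.biUnion (Finset.countable_toSet _) fun a _ => ?_
      refine Countable.biUnion (Finset.countable_toSet _) fun b _ => ?_
      refine Countable.biUnion (Finset.countable_toSet _) fun 𝔅 _ => ?_
      exact countable_singleton _
    refine h1.mono ?_
    rintro j ⟨a, b, 𝔅, ha, hb, h𝔅, hj⟩
    refine mem_biUnion (x := a) (by simpa using ha) ?_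
    refine mem_biUnion (x := b) (by simpa using hb) ?_
    exact mem_biUnion (x := 𝔅) (hsub 𝔅 h𝔅) hj
  · refine ((t.toRight.countable_toSet).image (fun g => Sum.inr (cmp g))).mono ?_
    rintro j ⟨g, hg, rfl⟩
    exact ⟨g, hg, rfl⟩

/-- `a` consists of elements of `Q` -/
def Ov (Q : Set (I ⊕ C(Y, unitInterval))) (a : Finset I) : Prop := ∀ i ∈ a, Sum.inl i ∈ Q

def OvS (Q : Set (I ⊕ C(Y, unitInterval))) (𝔅 : Finset (Finset I × Finset I)) : Prop :=
  ∀ p ∈ 𝔅, Ov Q p.1 ∧ Ov Q p.2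

variable {Q : Set (I ⊕ C(Y, unitInterval))}

lemma closed_min1 (hQ : Closd (opS f s) Q) {a : Finset I} {𝔅 : Finset (Finset I × Finset I)}
    (ha : Ov Q a) (h𝔅 : OvS Q 𝔅) {c : Finset (I ⊕ I)} (hc : MinHits (Zf f s a (Usys s 𝔅)) c)
    {i : I} (hi : Sum.inl i ∈ c ∨ Sum.inr i ∈ c) : Sum.inl i ∈ Q := by
  classical
  let t : Finset (I ⊕ C(Y, unitInterval)) := (a ∪ 𝔅.biUnion fun p => p.1 ∪ p.2).disjSum ∅
  refine hQ t ?_ ?_
  · intro j hj
    simp only [t, Finset.mem_coe] at hj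
    rcases j with j | j
    · rw [Finset.inl_mem_disjSum, Finset.mem_union, Finset.mem_biUnion] at hj
      rcases hj with hj | ⟨p, hp, hj⟩
      · exact ha j hj
      · rcases Finset.mem_union.1 hj with hj | hj
        · exact (h𝔅 p hp).1 j hj
        · exact (h𝔅 p hp).2 j hj
    · simp at hj
  · left; left; left
    refine ⟨a, 𝔅, ?_, ?_, c, hc, i, hi, rfl⟩
    · simp only [t, Finset.toLeft_disjSum]
      exact Finset.subset_union_left
    · intro p hp
      simp only [t, Finset.toLeft_disjSum]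
      constructor
      · intro j hj
        exact Finset.mem_union_right _ (Finset.mem_biUnion.2 ⟨p, hp, Finset.mem_union_left _ hj⟩)
      · intro j hj
        exact Finset.mem_union_right _ (Finset.mem_biUnion.2 ⟨p, hp, Finset.mem_union_right _ hj⟩)

lemma closed_min2 (hQ : Closd (opS f s) Q) {a : Finset I} {g : C(Y, unitInterval)}
    (ha : Ov Q a) (hg : Sum.inr g ∈ Q) {c : Finset (I ⊕ I)}
    (hc : MinHits (Zf f s a {x | 2/3 < (g (f x) : ℝ)}) c)
    {i : I} (hi : Sum.inl i ∈ c ∨ Sum.inr i ∈ c) : Sum.inl i ∈ Q := by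
  classical
  let t : Finset (I ⊕ C(Y, unitInterval)) := a.disjSum {g}
  refine hQ t ?_ ?_
  · intro j hj
    simp only [t, Finset.mem_coe] at hj
    rcases j with j | j
    · rw [Finset.inl_mem_disjSum] at hj
      exact ha j hj
    · rw [Finset.inr_mem_disjSum, Finset.mem_singleton] at hj
      rw [hj]
      exact hg
  · left; left; right
    exact ⟨a, g, by simp [t], by simp [t], c, hc, i, hi, rfl⟩

lemma closed_ur (hQ : Closd (opS f s) Q) {a b : Finset I} {𝔅 : Finset (Finset I × Finset I)}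
    (ha : Ov Q a) (hb : Ov Q b) (h𝔅 : OvS Q 𝔅) : Sum.inr (ur f s a b 𝔅) ∈ Q := by
  classical
  let t : Finset (I ⊕ C(Y, unitInterval)) := (a ∪ b ∪ 𝔅.biUnion fun p => p.1 ∪ p.2).disjSum ∅
  refine hQ t ?_ ?_
  · intro j hj
    simp only [t, Finset.mem_coe] at hj
    rcases j with j | j
    · rw [Finset.inl_mem_disjSum, Finset.mem_union, Finset.mem_union, Finset.mem_biUnion] at hj
      rcases hj with (hj | hj) | ⟨p, hp, hj⟩
      · exact ha j hj
      · exact hb j hj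
      · rcases Finset.mem_union.1 hj with hj | hj
        · exact (h𝔅 p hp).1 j hj
        · exact (h𝔅 p hp).2 j hj
    · simp at hj
  · left; right
    refine ⟨a, b, 𝔅, ?_, ?_, ?_, rfl⟩
    · simp only [t, Finset.toLeft_disjSum]
      exact Finset.subset_union_left.trans Finset.subset_union_left
    · simp only [t, Finset.toLeft_disjSum]
      exact Finset.subset_union_right.trans Finset.subset_union_left
    · intro p hp
      simp only [t, Finset.toLeft_disjSum]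
      constructor
      · intro j hj
        exact Finset.mem_union_right _ (Finset.mem_biUnion.2 ⟨p, hp, Finset.mem_union_left _ hj⟩)
      · intro j hj
        exact Finset.mem_union_right _ (Finset.mem_biUnion.2 ⟨p, hp, Finset.mem_union_right _ hj⟩)

lemma closed_cmp (hQ : Closd (opS f s) Q) {g : C(Y, unitInterval)} (hg : Sum.inr g ∈ Q) :
    Sum.inr (cmp g) ∈ Q := by
  classical
  refine hQ {Sum.inr g} (by simpa using hg) ?_
  right
  exact ⟨g, by simp, rfl⟩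

lemma Str.isOpen_Usys (hs : Str s rk) (𝔅 : Finset (Finset I × Finset I)) :
    IsOpen (Usys s 𝔅) := by
  have : Usys s 𝔅 = ⋃ p ∈ 𝔅, box s p.1 p.2 := by
    ext x; simp [Usys]
  rw [this]
  exact isOpen_biUnion fun p _ => hs.isOpen_box _ _

/-- If the part of the fibre coded in `Q` is covered by a system over `Q`,
the whole fibre is covered. -/
lemma cover_of_cover (hs : Str s rk) (hf : IsProperMap f) (hQ : Closd (opS f s) Q) {y : Y} {x₀ : X}
    (hx₀ : f x₀ = y) (hx₀Q : ∀ i ∈ s x₀, Sum.inl i ∈ Q) {𝔅 : Finset (Finset I × Finset I)}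
    (h𝔅 : OvS Q 𝔅) (h : ∀ x, f x = y → (∀ i ∈ s x, Sum.inl i ∈ Q) → x ∈ Usys s 𝔅) :
    ∀ x, f x = y → x ∈ Usys s 𝔅 := by
  classical
  -- a finite set `Λ` outside `Q`
  have hΛ : ∃ Λ : Finset I, (∀ i ∈ Λ, Sum.inl i ∉ Q) ∧
      ∀ x, f x = y → x ∈ Usys s 𝔅 ∨ ∃ i ∈ Λ, i ∈ s x := by
    have hK : IsCompact ({x | f x = y} \ Usys s 𝔅) := (isCompact_fib hf y).diff (hs.isOpen_Usys 𝔅)
    obtain ⟨t, ht⟩ := hK.elim_finite_subcover (fun i : {i : I // Sum.inl i ∉ Q} =>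
      {x | (i : I) ∈ s x}) (fun i => hs.opn i.1) (by
        rintro x ⟨hx, hx'⟩
        have : ∃ i ∈ s x, Sum.inl i ∉ Q := by
          by_contra hcon
          push Not at hcon
          exact hx' (h x hx hcon)
        obtain ⟨i, hi, hi'⟩ := this
        exact mem_iUnion.2 ⟨⟨i, hi'⟩, hi⟩)
    refine ⟨t.map (Function.Embedding.subtype _), ?_, ?_⟩
    · intro i hi
      simp only [Finset.mem_map, Function.Embedding.subtype_apply, Subtype.exists,
        exists_and_right, exists_eq_right] at hi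
      exact hi.1
    · intro x hx
      by_cases hxU : x ∈ Usys s 𝔅
      · exact Or.inl hxU
      · right
        have := ht ⟨hx, hxU⟩
        simp only [mem_iUnion, exists_prop] at this
        obtain ⟨i, hi, hi'⟩ := this
        exact ⟨i.1, by simpa using ⟨i.2, hi⟩, hi'⟩
  obtain ⟨Λ, hΛQ, hΛ⟩ := hΛ
  have hopen : IsOpen (kernImage f (Usys s 𝔅 ∪ {x | ∃ i ∈ (↑Λ : Set I), i ∈ s x})) :=
    isOpen_kern hf ((hs.isOpen_Usys 𝔅).union (hs.isOpen_meets _))
  have hmem : x₀ ∈ f ⁻¹' kernImage f (Usys s 𝔅 ∪ {x | ∃ i ∈ (↑Λ : Set I), i ∈ s x}) := by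
    intro x hx
    exact hΛ x (hx.trans hx₀)
  obtain ⟨a, b, ha, hb, hbox⟩ := hs.basis x₀ _ (hopen.preimage hf.continuous) hmem
  have hhit : Hits (Zf f s a (Usys s 𝔅)) (b.disjSum Λ) := by
    rw [hits_iff]
    intro z z' hz hzz' hz'
    by_cases hb' : ∃ i ∈ b, i ∈ s z
    · left
      obtain ⟨i, hi, hi'⟩ := hb'
      exact ⟨i, by simpa using hi, hi'⟩
    · right
      push Not at hb'
      rcases hbox z hz hb' hzz'.symm with h' | ⟨i, hi, hi'⟩
      · exact absurd h' hz'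
      · exact ⟨i, by simpa using hi, hi'⟩
  obtain ⟨c, hc, hcm⟩ := exists_minHits hhit
  intro x' hx'
  by_contra hx'U
  rcases hits_iff.1 hcm.1 x₀ x' ha (hx₀.trans hx'.symm) hx'U with ⟨i, hi, hi'⟩ | ⟨i, hi, hi'⟩
  · have := hc hi
    exact hb i (by simpa using this) hi'
  · have h1 : Sum.inl i ∈ Q := closed_min1 hQ (fun j hj => hx₀Q j (ha j hj)) h𝔅 hcm (Or.inr hi)
    have := hc hi
    exact hΛQ i (by simpa using this) h1

/-- a function of `Q` separating `y` from the complement of the basic neighbourhood. -/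
lemma exists_fun (hs : Str s rk) (hf : IsProperMap f) [NormalSpace Y]
    (hQ : Closd (opS f s) Q) {y : Y} {x₀ : X}
    (hx₀ : f x₀ = y) (hx₀Q : ∀ i ∈ s x₀, Sum.inl i ∈ Q) {𝔅 : Finset (Finset I × Finset I)}
    (h𝔅 : OvS Q 𝔅) (h : ∀ x, f x = y → x ∈ Usys s 𝔅) :
    ∃ g : C(Y, unitInterval), Sum.inr g ∈ Q ∧ g y = 1 ∧
      ∀ y', g y' ≠ 0 → ∀ x, f x = y' → x ∈ Usys s 𝔅 := by
  classical
  have hopen : IsOpen (kernImage f (Usys s 𝔅)) := isOpen_kern hf (hs.isOpen_Usys 𝔅)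
  have hmem : x₀ ∈ f ⁻¹' kernImage f (Usys s 𝔅) := by
    intro x hx
    exact h x (hx.trans hx₀)
  obtain ⟨a, b, ha, hb, hbox⟩ := hs.basis x₀ _ (hopen.preimage hf.continuous) hmem
  have hhit : Hits (Zf f s a (Usys s 𝔅)) (b.disjSum ∅) := by
    rw [hits_iff]
    intro z z' hz hzz' hz'
    by_cases hb' : ∃ i ∈ b, i ∈ s z
    · left
      obtain ⟨i, hi, hi'⟩ := hb'
      exact ⟨i, by simpa using hi, hi'⟩
    · exfalso
      push Not at hb'
      exact hz' (hbox z hz hb' hzz'.symm)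
  obtain ⟨c, hc, hcm⟩ := exists_minHits hhit
  have hcb : ∀ i ∈ c.toLeft, i ∉ s x₀ := by
    intro i hi
    have := hc (Finset.mem_toLeft.1 hi)
    exact hb i (by simpa using this)
  have haQ : Ov Q a := fun j hj => hx₀Q j (ha j hj)
  have hcQ : Ov Q c.toLeft := fun i hi =>
    closed_min1 hQ haQ h𝔅 hcm (Or.inl (Finset.mem_toLeft.1 hi))
  have hsubU : f '' box s a c.toLeft ⊆ kernImage f (Usys s 𝔅) := by
    rintro _ ⟨z, hz, rfl⟩ z' hz'
    by_contra hcon
    rcases hits_iff.1 hcm.1 z z' hz.1 hz'.symm hcon with ⟨i, hi, hi'⟩ | ⟨i, hi, hi'⟩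
    · exact hz.2 i (Finset.mem_toLeft.2 hi) hi'
    · have := hc hi
      simp at this
  have hex : ∃ g : C(Y, unitInterval), (∀ x ∈ box s a c.toLeft, g (f x) = 1) ∧
      ∀ y, g y ≠ 0 → ∀ x, f x = y → x ∈ Usys s 𝔅 := by
    obtain ⟨g, hg1, hg2⟩ := urys (hf.isClosedMap _ (hs.isClosed_box a c.toLeft)) hopen hsubU
    exact ⟨g, fun x hx => hg1 _ (mem_image_of_mem f hx), fun y hy x hx => hg2 y hy hx⟩
  obtain ⟨h1, h2⟩ := ur_spec hex
  refine ⟨ur f s a c.toLeft 𝔅, closed_ur hQ haQ hcQ h𝔅, ?_, h2⟩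
  rw [← hx₀]
  exact h1 x₀ ⟨ha, hcb⟩

/-- The key lemma comparing two closed sets. -/
lemma compare (hs : Str s rk) (hf : IsProperMap f) [NormalSpace Y]
    {M N : Set (I ⊕ C(Y, unitInterval))} (hM : Closd (opS f s) M) (hN : Closd (opS f s) N)
    {y : Y} {x₀ : X} (hx₀ : f x₀ = y) (hx₀M : ∀ i ∈ s x₀, Sum.inl i ∈ M)
    (hx₀N : ∀ i ∈ s x₀, Sum.inl i ∈ N) {g : C(Y, unitInterval)} (hg : Sum.inr g ∈ N)
    (hgy : g y = 1) :
    ∃ g' : C(Y, unitInterval), Sum.inr g' ∈ M ∧ Sum.inr g' ∈ N ∧ g' y = 1 ∧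
      ∃ Λ : Finset I, (∀ i ∈ Λ, Sum.inl i ∈ N ∧ Sum.inl i ∉ M) ∧
        ∀ y', g' y' ≠ 0 → (g y' : ℝ) ≤ 2/3 → ∀ x, f x = y' → ∃ i ∈ Λ, i ∈ s x := by
  classical
  have hP : Closd (opS f s) (M ∩ N) := hM.inter hN
  have hx₀P : ∀ i ∈ s x₀, Sum.inl i ∈ M ∩ N := fun i hi => ⟨hx₀M i hi, hx₀N i hi⟩
  -- the compact set
  let K : Set X := {x | f x = y} \ {x | ∃ i ∈ {i | Sum.inl i ∉ M ∩ N}, i ∈ s x}
  have hK : IsCompact K := (isCompact_fib hf y).diff (hs.isOpen_meets _)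
  have hKi : ∀ x, x ∈ K ↔ f x = y ∧ ∀ i ∈ s x, Sum.inl i ∈ M ∩ N := by
    intro x
    constructor
    · rintro ⟨h1, h2⟩
      refine ⟨h1, fun i hi => ?_⟩
      by_contra hcon
      exact h2 ⟨i, hcon, hi⟩
    · rintro ⟨h1, h2⟩
      refine ⟨h1, ?_⟩
      rintro ⟨i, hi, hi'⟩
      exact hi (h2 i hi')
  have hopen : IsOpen {x | 2/3 < (g (f x) : ℝ)} := by
    have : Continuous fun x => (g (f x) : ℝ) :=
      continuous_subtype_val.comp (g.continuous.comp hf.continuous)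
    exact isOpen_lt continuous_const this
  have key : ∀ x ∈ K, ∃ p : Finset I × Finset I, x ∈ box s p.1 p.2 ∧ Ov (M ∩ N) p.1 ∧ Ov N p.2 ∧
      ∀ x' ∈ box s p.1 p.2, 2/3 < (g (f x') : ℝ) := by
    intro x hx
    obtain ⟨hxy, hxP⟩ := (hKi x).1 hx
    have hxm : x ∈ {x | 2/3 < (g (f x) : ℝ)} := by
      simp only [mem_setOf_eq, hxy, hgy]
      norm_num
    obtain ⟨a, b, ha, hb, hbox⟩ := hs.basis x _ hopen hxm
    have hhit : Hits (Zf f s a {x | 2/3 < (g (f x) : ℝ)}) (b.disjSum ∅) := by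
      rw [hits_iff]
      intro z z' hz hzz' hz'
      by_cases hb' : ∃ i ∈ b, i ∈ s z
      · left
        obtain ⟨i, hi, hi'⟩ := hb'
        exact ⟨i, by simpa using hi, hi'⟩
      · exfalso
        push Not at hb'
        apply hz'
        have := hbox z hz hb'
        simp only [mem_setOf_eq] at this ⊢
        rwa [hzz'] at this
    obtain ⟨c, hc, hcm⟩ := exists_minHits hhit
    have haP : Ov (M ∩ N) a := fun j hj => hxP j (ha j hj)
    refine ⟨(a, c.toLeft), ⟨ha, ?_⟩, haP, ?_, ?_⟩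
    · intro i hi
      have := hc (Finset.mem_toLeft.1 hi)
      exact hb i (by simpa using this)
    · intro i hi
      exact closed_min2 hN (fun j hj => (haP j hj).2) hg hcm (Or.inl (Finset.mem_toLeft.1 hi))
    · intro z hz
      by_contra hcon
      rcases hits_iff.1 hcm.1 z z hz.1 rfl hcon with ⟨i, hi, hi'⟩ | ⟨i, hi, hi'⟩
      · exact hz.2 i (Finset.mem_toLeft.2 hi) hi'
      · have := hc hi
        simp at this
  -- finite subcover
  have hfin : ∃ 𝔅₀ : Finset (Finset I × Finset I), (∀ p ∈ 𝔅₀, Ov (M ∩ N) p.1 ∧ Ov N p.2 ∧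
      ∀ x' ∈ box s p.1 p.2, 2/3 < (g (f x') : ℝ)) ∧ K ⊆ Usys s 𝔅₀ := by
    choose! p hp using key
    obtain ⟨t, ht⟩ := hK.elim_nhds_subcover' (fun x _ => box s (p x).1 (p x).2)
      (fun x hx => (hs.isOpen_box _ _).mem_nhds (hp x hx).1)
    refine ⟨t.image fun x => p x.1, ?_, ?_⟩
    · intro q hq
      obtain ⟨x, _, rfl⟩ := Finset.mem_image.1 hq
      exact (hp x.1 x.2).2
    · intro x hx
      have := ht hx
      simp only [mem_iUnion, exists_prop] at this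
      obtain ⟨z, hz, hxz⟩ := this
      exact ⟨p z.1, Finset.mem_image_of_mem _ hz, hxz⟩
  obtain ⟨𝔅₀, h𝔅₀, hK𝔅₀⟩ := hfin
  let inM : Finset I → Finset I := fun b => b.filter fun i => Sum.inl i ∈ M
  let 𝔅 : Finset (Finset I × Finset I) := 𝔅₀.image fun p => (p.1, inM p.2)
  have h𝔅 : OvS (M ∩ N) 𝔅 := by
    intro q hq
    obtain ⟨p, hp, rfl⟩ := Finset.mem_image.1 hq
    refine ⟨(h𝔅₀ p hp).1, ?_⟩
    intro i hi
    obtain ⟨h1, h2⟩ := Finset.mem_filter.1 hi
    exact ⟨h2, (h𝔅₀ p hp).2.1 i h1⟩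
  have hcov : ∀ x, f x = y → x ∈ Usys s 𝔅 := by
    refine cover_of_cover hs hf hP hx₀ hx₀P h𝔅 ?_
    intro x hx hxP
    obtain ⟨p, hp, hxp⟩ := hK𝔅₀ ((hKi x).2 ⟨hx, hxP⟩)
    refine ⟨(p.1, inM p.2), Finset.mem_image_of_mem _ hp, hxp.1, ?_⟩
    intro i hi
    exact hxp.2 i (Finset.mem_filter.1 hi).1
  obtain ⟨g', hg'P, hg'y, hg'⟩ := exists_fun hs hf hP hx₀ hx₀P h𝔅 hcov
  refine ⟨g', hg'P.1, hg'P.2, hg'y,
    𝔅₀.biUnion fun p => p.2.filter fun i => Sum.inl i ∉ M, ?_, ?_⟩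
  · intro i hi
    obtain ⟨p, hp, hi⟩ := Finset.mem_biUnion.1 hi
    obtain ⟨h1, h2⟩ := Finset.mem_filter.1 hi
    exact ⟨(h𝔅₀ p hp).2.1 i h1, h2⟩
  · intro y' hy' hgy' x hx
    obtain ⟨q, hq, hxq⟩ := hg' y' hy' x hx
    obtain ⟨p, hp, rfl⟩ := Finset.mem_image.1 hq
    have hnot : x ∉ box s p.1 p.2 := by
      intro hxp
      have := (h𝔅₀ p hp).2.2 x hxp
      rw [hx] at this
      linarith
    have : ∃ i ∈ p.2, i ∈ s x := by
      by_contra hcon
      push Not at hcon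
      exact hnot ⟨hxq.1, hcon⟩
    obtain ⟨i, hi, hi'⟩ := this
    refine ⟨i, ?_, hi'⟩
    refine Finset.mem_biUnion.2 ⟨p, hp, Finset.mem_filter.2 ⟨hi, ?_⟩⟩
    intro hiM
    exact hxq.2 i (Finset.mem_filter.2 ⟨hi, hiM⟩) hi'

end ops

end Pool.Agent.Lib37
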