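import Mathlib
import Pool.Agent.Lib37.Davies
import Pool.Agent.Lib37.Basic
import Pool.Agent.Lib37.Second

set_option autoImplicit false
open Set Topology Filter

namespace Pool.Agent.Lib37

lemma tendsto_of_levels {Γ : Type} (φ : Γ → ℝ) (lv : Γ → ℕ)
    (hb : ∀ γ, |φ γ| ≤ 1 / ((lv γ : ℝ) + 1)) (hfin : ∀ n, {γ | lv γ ≤ n ∧ φ γ ≠ 0}.Finite) :
    Tendsto φ cofinite (𝓝 0) := by
  rw [Metric.tendsto_nhds]
  intro ε hε
  obtain ⟨n, hn⟩ := exists_nat_one_div_lt hε
  rw [eventually_cofinite]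
  refine (hfin n).subset ?_
  intro γ hγ
  simp only [mem_setOf_eq, dist_zero_right, Real.norm_eq_abs, not_lt] at hγ
  constructor
  · by_contra hcon
    push Not at hcon
    have h1 : 1 / ((lv γ : ℝ) + 1) ≤ 1 / ((n : ℝ) + 1) := by
      apply one_div_le_one_div_of_le (by positivity)
      have : (n : ℝ) ≤ (lv γ : ℝ) := by exact_mod_cast hcon.le
      linarith
    linarith [hb γ]
  · intro h0
    rw [h0, abs_zero] at hγ
    linarith

lemma countable_finsets {C : Type} {B : Set C} (hB : B.Countable) :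
    {h : Finset C | ∀ g ∈ h, g ∈ B}.Countable := by
  have h1 := Set.countable_setOf_finite_subset hB
  refine (h1.preimage_of_injOn (f := fun h : Finset C => (↑h : Set C)) ?_).mono ?_
  · intro a _ b _ hab
    exact Finset.coe_injective hab
  · intro h hh
    exact ⟨h.finite_toSet, fun g hg => hh g hg⟩

section final

variable {I X Y : Type} [TopologicalSpace X] [TopologicalSpace Y]
variable {s : X → Set I} {rk : I → ℕ} {f : X → Y}

/-- known coordinates -/
def Tv {A : Type} (Y : Type) [TopologicalSpace Y] (Λ : A → Finset I) (v : Set A) :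
    Set (I ⊕ C(Y, unitInterval)) :=
  {j | ∃ α ∈ v, ∃ i ∈ Λ α, j = Sum.inl i}

lemma Tv_mono {A : Type} {Λ : A → Finset I} {v v' : Set A} (h : v ⊆ v') :
    Tv Y Λ v ⊆ Tv Y Λ v' := by
  rintro j ⟨α, hα, i, hi, rfl⟩
  exact ⟨α, h hα, i, hi, rfl⟩

lemma finite_in_Tv {A : Type} {Λ : A → Finset I} {v : Set A} {P : Set (I ⊕ C(Y, unitInterval))}
    (t : Finset (I ⊕ C(Y, unitInterval))) (ht : (↑t : Set (I ⊕ C(Y, unitInterval))) ⊆ P ∪ Tv Y Λ v) :
    ∃ w : Finset A, (↑w : Set A) ⊆ v ∧
      (↑t : Set (I ⊕ C(Y, unitInterval))) ⊆ P ∪ Tv Y Λ (↑w : Set A) := by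
  classical
  induction t using Finset.induction_on with
  | empty => exact ⟨∅, by simp, by simp⟩
  | insert j t hj ih =>
    obtain ⟨w, hw, hw'⟩ := ih (fun z hz => ht (by simp [Finset.mem_coe.1 hz]))
    rcases ht (show j ∈ (↑(insert j t) : Set (I ⊕ C(Y, unitInterval))) by simp) with h | ⟨α, hα, i, hi, hji⟩
    · refine ⟨w, hw, ?_⟩
      intro z hz
      rcases Finset.mem_insert.1 (Finset.mem_coe.1 hz) with rfl | hz
      · exact Or.inl h
      · exact hw' hz
    · refine ⟨insert α w, ?_, ?_⟩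
      · intro β hβ
        rcases Finset.mem_insert.1 (Finset.mem_coe.1 hβ) with rfl | hβ
        · exact hα
        · exact hw hβ
      · intro z hz
        rcases Finset.mem_insert.1 (Finset.mem_coe.1 hz) with rfl | hz
        · right
          exact ⟨α, by simp, i, hi, hji⟩
        · rcases hw' hz with h | h
          · exact Or.inl h
          · right
            exact Tv_mono (by intro β hβ; simp [Finset.mem_coe.1 hβ]) h

/-- the product function -/
noncomputable def prodF {A : Type} (u : A → C(Y, unitInterval)) (v : Finset A)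
    (h : Finset C(Y, unitInterval)) (y : Y) : ℝ :=
  (∏ α ∈ v, (u α y : ℝ)) * ∏ g ∈ h, (g y : ℝ)

lemma prodF_nonneg {A : Type} (u : A → C(Y, unitInterval)) (v : Finset A)
    (h : Finset C(Y, unitInterval)) (y : Y) : 0 ≤ prodF u v h y :=
  mul_nonneg (Finset.prod_nonneg fun α _ => (u α y).2.1) (Finset.prod_nonneg fun g _ => (g y).2.1)

lemma prodF_le_one {A : Type} (u : A → C(Y, unitInterval)) (v : Finset A)
    (h : Finset C(Y, unitInterval)) (y : Y) : prodF u v h y ≤ 1 := by
  refine mul_le_one₀ ?_ ?_ ?_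
  · exact Finset.prod_le_one (fun α _ => (u α y).2.1) (fun α _ => (u α y).2.2)
  · exact Finset.prod_nonneg fun g _ => (g y).2.1
  · exact Finset.prod_le_one (fun g _ => (g y).2.1) (fun g _ => (g y).2.2)

lemma continuous_prodF {A : Type} (u : A → C(Y, unitInterval)) (v : Finset A)
    (h : Finset C(Y, unitInterval)) : Continuous (prodF u v h) := by
  unfold prodF
  refine Continuous.mul ?_ ?_
  · exact continuous_finset_prod _ fun α _ => continuous_subtype_val.comp (u α).continuous
  · exact continuous_finset_prod _ fun g _ => continuous_subtype_val.comp g.continuous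

theorem secondHalf (hs : Str s rk) (hf : IsProperMap f) (hsurj : Function.Surjective f)
    [NormalSpace Y] [T1Space Y] {A : Type} (u : A → C(Y, unitInterval)) (Λ : A → Finset I)
    (lev : A → ℕ) (hpf : ∀ n y, {α | lev α ≤ n ∧ u α y ≠ 0}.Finite)
    (hK : ∀ y, ∃ x, f x = y ∧ ∀ i ∈ s x, ∃ α, u α y ≠ 0 ∧ i ∈ Λ α) :
    ∃ (Γ : Type) (e : Y → (Γ → ℝ)), IsEmbedding e ∧ ∀ y, Tendsto (e y) cofinite (𝓝 0) := by
  classical
  obtain ⟨𝒥, h𝒥1, h𝒥2, h𝒥3⟩ := davies (op := opS f s) (countable_opS hs) univ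
    (fun _ _ _ _ => mem_univ _) ∅ finite_empty (by simp)
  -- codes
  have hcode : ∀ (p : Set (I ⊕ C(Y, unitInterval)) × Set (Set (I ⊕ C(Y, unitInterval))))
      (v : Finset A), ∃ cd : Finset C(Y, unitInterval) → ℕ, p ∈ 𝒥 →
        InjOn cd {h | ∀ g ∈ h, Sum.inr g ∈ cl (opS f s) (p.1 ∪ Tv Y Λ (↑v : Set A))} := by
    intro p v
    by_cases hp : p ∈ 𝒥
    · have h1 : (Tv Y Λ (↑v : Set A)).Countable := by
        have : Tv Y Λ (↑v : Set A) ⊆ (⋃ α ∈ (↑v : Set A), Sum.inl '' (↑(Λ α) : Set I)) := by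
          rintro j ⟨α, hα, i, hi, rfl⟩
          exact mem_biUnion (x := α) hα ⟨i, hi, rfl⟩
        exact (Countable.biUnion v.countable_toSet fun α _ =>
          (Λ α).countable_toSet.image _).mono this
      have h2 : (cl (opS f s) (p.1 ∪ Tv Y Λ (↑v : Set A))).Countable :=
        countable_cl (countable_opS hs) ((h𝒥1 p hp).1.union h1)
      have h3 : {g : C(Y, unitInterval) | Sum.inr g ∈
          cl (opS f s) (p.1 ∪ Tv Y Λ (↑v : Set A))}.Countable :=
        h2.preimage_of_injOn (f := Sum.inr) (Sum.inr_injective.injOn)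
      obtain ⟨cd, hcd⟩ := Set.countable_iff_exists_injOn.1 (countable_finsets h3)
      exact ⟨cd, fun _ => hcd⟩
    · exact ⟨fun _ => 0, fun h => absurd h hp⟩
  choose cd hcd using hcode
  -- index set
  let Tup := ((Set (I ⊕ C(Y, unitInterval)) × Set (Set (I ⊕ C(Y, unitInterval)))) × Finset A) ×
    (Finset C(Y, unitInterval) × ℕ)
  let Good : Tup → Prop := fun q => q.1.1 ∈ 𝒥 ∧ (∀ α ∈ q.1.2, lev α ≤ q.2.2) ∧
    (∀ g ∈ q.2.1, Sum.inr g ∈ cl (opS f s) (q.1.1.1 ∪ Tv Y Λ (↑q.1.2 : Set A))) ∧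
    ∀ M ∈ q.1.1.2, ∀ y', prodF u q.1.2 q.2.1 y' ≠ 0 → ∀ x, f x = y' →
      ∃ i ∈ s x, rk i ≤ q.2.2 ∧ Sum.inl i ∈ cl (opS f s) (q.1.1.1 ∪ Tv Y Λ (↑q.1.2 : Set A)) ∧
        Sum.inl i ∉ cl (opS f s) (M ∪ Tv Y Λ (↑q.1.2 : Set A))
  let Idx := {q : Tup // Good q}
  let lvI : Idx → ℕ := fun q => q.1.2.2 + cd q.1.1.1 q.1.1.2 q.1.2.1
  let e : Y → (Idx ⊕ A → ℝ) := fun y => Sum.elim
    (fun q => prodF u q.1.1.2 q.1.2.1 y / ((lvI q : ℝ) + 1))
    (fun α => (u α y : ℝ) / ((lev α : ℝ) + 1))
  have hecont : Continuous e := by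
    refine continuous_pi ?_
    rintro (q | α)
    · exact (continuous_prodF u _ _).div_const _
    · exact (continuous_subtype_val.comp (u α).continuous).div_const _
  have hfinI : ∀ (n : ℕ) (y : Y), {q : Idx | lvI q ≤ n ∧ prodF u q.1.1.2 q.1.2.1 y ≠ 0}.Finite := by
    intro n y
    obtain ⟨x, hx⟩ := hsurj y
    -- finitely many v
    have hv : {v : Finset A | ∀ α ∈ v, lev α ≤ n ∧ u α y ≠ 0}.Finite := by
      refine ((hpf n y).toFinset.powerset.finite_toSet).subset ?_
      intro v hv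
      simp only [Finset.coe_powerset, mem_preimage, mem_powerset_iff]
      intro α hα
      simp only [Finite.coe_toFinset]
      exact hv α hα
    have ht : (Sum.inl '' {i | i ∈ s x ∧ rk i ≤ n} : Set (I ⊕ C(Y, unitInterval))).Finite :=
      (hs.fin x n).image _
    have hp := fun v : Finset A => h𝒥2 _ (Tv Y Λ (↑v : Set A)) ht
    have hh : ∀ p ∈ 𝒥, ∀ v : Finset A, {h : Finset C(Y, unitInterval) |
        (∀ g ∈ h, Sum.inr g ∈ cl (opS f s) (p.1 ∪ Tv Y Λ (↑v : Set A))) ∧ cd p v h ≤ n}.Finite := by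
      intro p hp v
      refine Set.Finite.of_finite_image (f := cd p v) ?_ ?_
      · refine (finite_Iic n).subset ?_
        rintro _ ⟨h, ⟨_, hh⟩, rfl⟩
        exact hh
      · exact (hcd p v hp).mono fun h hh => hh.1
    have hbig : {q : Tup | Good q ∧ q.2.2 + cd q.1.1 q.1.2 q.2.1 ≤ n ∧
        prodF u q.1.2 q.2.1 y ≠ 0}.Finite := by
      refine (hv.biUnion fun v _ => (hp v).biUnion (t := fun p =>
        (fun r : Finset C(Y, unitInterval) × ℕ => (((p, v), r) : Tup)) ''
          ({h : Finset C(Y, unitInterval) |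
          (∀ g ∈ h, Sum.inr g ∈ cl (opS f s) (p.1 ∪ Tv Y Λ (↑v : Set A))) ∧ cd p v h ≤ n} ×ˢ
            Iic n)) fun p hp => ((hh p hp.1 v).prod (finite_Iic n)).image _).subset ?_
      rintro ⟨⟨p, v⟩, ⟨h, m⟩⟩ ⟨⟨hG1, hG2, hG3, hG4⟩, hle, hne⟩
      simp only at hG1 hG2 hG3 hG4 hle hne
      have hm : m ≤ n := le_trans (Nat.le_add_right _ _) hle
      have hc : cd p v h ≤ n := le_trans (Nat.le_add_left _ _) hle
      refine mem_biUnion (x := v) ?_ (mem_biUnion (x := p) ?_ ⟨(h, m), ⟨⟨hG3, hc⟩, hm⟩, rfl⟩)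
      · intro α hα
        refine ⟨(hG2 α hα).trans hm, ?_⟩
        intro h0
        apply hne
        unfold prodF
        rw [Finset.prod_eq_zero hα (by rw [h0]; rfl), zero_mul]
      · refine ⟨hG1, ?_⟩
        intro M hM
        obtain ⟨i, hi, hri, hi1, hi2⟩ := hG4 M hM y hne x hx
        exact ⟨Sum.inl i, ⟨i, ⟨hi, hri.trans hm⟩, rfl⟩, hi1, hi2⟩
    refine (hbig.preimage (f := (Subtype.val : Idx → Tup)) Subtype.val_injective.injOn).subset ?_
    rintro q ⟨h1, h2⟩
    exact ⟨q.2, h1, h2⟩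
  have hc0 : ∀ y, Tendsto (e y) cofinite (𝓝 0) := by
    intro y
    refine tendsto_of_levels (e y) (Sum.elim lvI lev) ?_ ?_
    · rintro (q | α)
      · simp only [e, Sum.elim_inl]
        rw [abs_of_nonneg (div_nonneg (prodF_nonneg u _ _ y) (by positivity))]
        exact div_le_div_of_nonneg_right (prodF_le_one u _ _ y) (by positivity)
      · simp only [e, Sum.elim_inr]
        rw [abs_of_nonneg (div_nonneg (u α y).2.1 (by positivity))]
        exact div_le_div_of_nonneg_right (u α y).2.2 (by positivity)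
    · intro n
      refine (((hfinI n y).image Sum.inl).union ((hpf n y).image Sum.inr)).subset ?_
      rintro (q | α) ⟨h1, h2⟩
      · left
        refine ⟨q, ⟨h1, ?_⟩, rfl⟩
        intro h0
        apply h2
        simp only [e, Sum.elim_inl, h0, zero_div]
      · right
        refine ⟨α, ⟨h1, ?_⟩, rfl⟩
        intro h0
        apply h2
        simp only [e, Sum.elim_inr, h0]
        simp
  -- main claim
  have main : ∀ y (g : C(Y, unitInterval)), g y = 1 →
      ∀ᶠ y' in comap e (𝓝 (e y)), (1 / 2 : ℝ) < (g y' : ℝ) := by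
    intro y
    set F := comap e (𝓝 (e y)) with hF
    have heF : ∀ γ, Tendsto (fun y' => e y' γ) F (𝓝 (e y γ)) := by
      intro γ
      have h1 : Tendsto e F (𝓝 (e y)) := tendsto_comap
      exact (continuous_apply γ).continuousAt.tendsto.comp h1
    have huF : ∀ α, Tendsto (fun y' => (u α y' : ℝ)) F (𝓝 (u α y : ℝ)) := by
      intro α
      have h1 := (heF (Sum.inr α)).mul_const ((lev α : ℝ) + 1)
      have h2 : ∀ z, e z (Sum.inr α) * ((lev α : ℝ) + 1) = (u α z : ℝ) := by
        intro z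
        simp only [e, Sum.elim_inr]
        field_simp
      simpa only [h2] using h1
    have hqF : ∀ q : Idx, Tendsto (fun y' => prodF u q.1.1.2 q.1.2.1 y') F
        (𝓝 (prodF u q.1.1.2 q.1.2.1 y)) := by
      intro q
      have h1 := (heF (Sum.inl q)).mul_const ((lvI q : ℝ) + 1)
      have h2 : ∀ z, e z (Sum.inl q) * ((lvI q : ℝ) + 1) = prodF u q.1.1.2 q.1.2.1 z := by
        intro z
        simp only [e, Sum.elim_inl]
        field_simp
      simpa only [h2] using h1
    let vy : Set A := {α | u α y ≠ 0}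
    let W : Set (I ⊕ C(Y, unitInterval)) := {j | ∀ g : C(Y, unitInterval), j = Sum.inr g →
      g y = 1 → ∀ᶠ y' in F, (1 / 2 : ℝ) < (g y' : ℝ)}
    have hall : cl (opS f s) (univ ∪ Tv Y Λ vy) ⊆ W := by
      refine h𝒥3 (Tv Y Λ vy) W (by simp) ?_
      intro p hp hpM j hj g hjg hgy
      subst hjg
      obtain ⟨_, _, _, hp2fin, _, _⟩ := h𝒥1 p hp
      obtain ⟨x₀, hx₀, hx₀K⟩ := hK y
      have hx₀T : ∀ i ∈ s x₀, (Sum.inl i : I ⊕ C(Y, unitInterval)) ∈ Tv Y Λ vy := by
        intro i hi
        obtain ⟨α, hα, hiα⟩ := hx₀K i hi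
        exact ⟨α, hα, i, hiα, rfl⟩
      have hcmp : ∀ M ∈ p.2, ∃ g' : C(Y, unitInterval),
          Sum.inr g' ∈ cl (opS f s) (M ∪ Tv Y Λ vy) ∧
          Sum.inr g' ∈ cl (opS f s) (p.1 ∪ Tv Y Λ vy) ∧ g' y = 1 ∧
          ∃ Λ' : Finset I, (∀ i ∈ Λ', Sum.inl i ∈ cl (opS f s) (p.1 ∪ Tv Y Λ vy) ∧
            Sum.inl i ∉ cl (opS f s) (M ∪ Tv Y Λ vy)) ∧
            ∀ y', g' y' ≠ 0 → (g y' : ℝ) ≤ 2/3 → ∀ x, f x = y' → ∃ i ∈ Λ', i ∈ s x := by
        intro M hM
        exact compare hs hf (closd_cl _ _) (closd_cl _ _) hx₀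
          (fun i hi => subset_cl _ _ (Or.inr (hx₀T i hi)))
          (fun i hi => subset_cl _ _ (Or.inr (hx₀T i hi))) hj hgy
      choose! g' hg'1 hg'2 hg'3 Λ' hΛ'1 hΛ'2 using hcmp
      -- collect
      let 𝕄f := hp2fin.toFinset
      let G : Finset C(Y, unitInterval) := insert (cmp g) (𝕄f.image g')
      let R : Finset (I ⊕ C(Y, unitInterval)) :=
        (G.image Sum.inr) ∪ (𝕄f.biUnion fun M => (Λ' M).image Sum.inl)
      have hR : (↑R : Set (I ⊕ C(Y, unitInterval))) ⊆ cl (opS f s) (p.1 ∪ Tv Y Λ vy) := by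
        intro z hz
        rcases Finset.mem_union.1 (Finset.mem_coe.1 hz) with hz | hz
        · obtain ⟨h, hh, rfl⟩ := Finset.mem_image.1 hz
          rcases Finset.mem_insert.1 hh with rfl | hh
          · exact closed_cmp (closd_cl _ _) hj
          · obtain ⟨M, hM, rfl⟩ := Finset.mem_image.1 hh
            exact hg'2 M ((Finite.mem_toFinset _).1 hM)
        · obtain ⟨M, hM, hz⟩ := Finset.mem_biUnion.1 hz
          obtain ⟨i, hi, rfl⟩ := Finset.mem_image.1 hz
          exact (hΛ'1 M ((Finite.mem_toFinset _).1 hM) i hi).1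
      obtain ⟨t, ht, hRt⟩ := finset_subset_cl hR
      obtain ⟨v, hvy, htv⟩ := finite_in_Tv t ht
      have hRv : (↑R : Set (I ⊕ C(Y, unitInterval))) ⊆
          cl (opS f s) (p.1 ∪ Tv Y Λ (↑v : Set A)) := hRt.trans (cl_mono htv)
      let n : ℕ := max (v.sup lev) (𝕄f.sup fun M => (Λ' M).sup rk)
      have hgood : Good (((p, v), (G, n)) : Tup) := by
        refine ⟨hp, ?_, ?_, ?_⟩
        · intro α hα
          exact (Finset.le_sup (f := lev) hα).trans (le_max_left _ _)
        · intro h hh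
          exact hRv (Finset.mem_coe.2 (Finset.mem_union_left _ (Finset.mem_image_of_mem _ hh)))
        · intro M hM y' hne x hx
          simp only at hM hne
          have hMf : M ∈ 𝕄f := (Finite.mem_toFinset _).2 hM
          have hGne : ∀ h ∈ G, h y' ≠ 0 := by
            intro h hh h0
            apply hne
            unfold prodF
            rw [Finset.prod_eq_zero hh (by rw [h0]; rfl), mul_zero]
          have h1 : g' M y' ≠ 0 :=
            hGne _ (Finset.mem_insert_of_mem (Finset.mem_image_of_mem _ hMf))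
          have h2 : cmp g y' ≠ 0 := hGne _ (Finset.mem_insert_self _ _)
          have h3 : (g y' : ℝ) ≤ 2/3 := by
            by_contra hcon
            push Not at hcon
            apply h2
            apply Subtype.ext
            rw [cmp_apply, max_eq_left (by linarith)]
            rfl
          obtain ⟨i, hi, his⟩ := hΛ'2 M hM y' h1 h3 x hx
          refine ⟨i, his, ?_, ?_, ?_⟩
          · calc rk i ≤ (Λ' M).sup rk := Finset.le_sup hi
              _ ≤ 𝕄f.sup fun M => (Λ' M).sup rk :=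
                Finset.le_sup (f := fun M => (Λ' M).sup rk) hMf
              _ ≤ n := le_max_right _ _
          · apply hRv
            refine Finset.mem_coe.2 (Finset.mem_union_right _ (Finset.mem_biUnion.2 ⟨M, hMf, ?_⟩))
            exact Finset.mem_image_of_mem _ hi
          · intro hcon
            apply (hΛ'1 M hM i hi).2
            exact cl_mono (union_subset_union_right _ (Tv_mono hvy)) hcon
      -- the product tends to zero
      have hprod := hqF ⟨((p, v), (G, n)), hgood⟩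
      simp only at hprod
      have hP : Tendsto (fun y' => ∏ α ∈ v, (u α y' : ℝ)) F (𝓝 (∏ α ∈ v, (u α y : ℝ))) :=
        tendsto_finset_prod _ fun α _ => huF α
      have hPne : (∏ α ∈ v, (u α y : ℝ)) ≠ 0 := by
        rw [Finset.prod_ne_zero_iff]
        intro α hα h0
        exact hvy hα (Subtype.ext h0)
      have hdiv := hprod.div hP hPne
      have hzero : prodF u v G y / (∏ α ∈ v, (u α y : ℝ)) = 0 := by
        unfold prodF
        rw [Finset.prod_eq_zero (i := cmp g) (s := G) (Finset.mem_insert_self _ _), mul_zero,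
          zero_div]
        rw [cmp_apply, hgy]
        norm_num
      rw [hzero] at hdiv
      have hδ : (0 : ℝ) < (1 / 6) ^ G.card := by positivity
      have ev1 := hdiv.eventually (gt_mem_nhds hδ)
      have ev2 := hP.eventually_ne hPne
      have ev3 : ∀ᶠ y' in F, ∀ M ∈ p.2, (1 / 2 : ℝ) < (g' M y' : ℝ) := by
        rw [eventually_all_finite hp2fin]
        intro M hM
        exact hpM M hM (hg'1 M hM) (g' M) rfl (hg'3 M hM)
      filter_upwards [ev1, ev2, ev3] with y' h1 h2 h3
      by_contra hcon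
      push Not at hcon
      simp only [Pi.div_apply] at h1
      unfold prodF at h1
      rw [mul_comm, mul_div_assoc, div_self h2, mul_one] at h1
      have h4 : ((1 : ℝ) / 6) ^ G.card ≤ ∏ h ∈ G, (h y' : ℝ) := by
        rw [← Finset.prod_const]
        refine Finset.prod_le_prod (fun _ _ => by norm_num) ?_
        intro h hh
        rcases Finset.mem_insert.1 hh with rfl | hh
        · rw [cmp_apply]
          refine le_trans ?_ (le_max_right _ _)
          linarith
        · obtain ⟨M, hM, rfl⟩ := Finset.mem_image.1 hh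
          have := h3 M ((Finite.mem_toFinset _).1 hM)
          linarith
      linarith
    intro g hgy
    exact hall (subset_cl _ _ (Or.inl (mem_univ (Sum.inr g)))) g rfl hgy
  refine ⟨Idx ⊕ A, e, ?_, hc0⟩
  refine IsInducing.isEmbedding ?_
  rw [isInducing_iff_nhds]
  intro y
  refine le_antisymm ?_ ?_
  · exact (hecont.tendsto y).le_comap
  · intro V hV
    obtain ⟨V', hV'V, hV'o, hyV'⟩ := mem_nhds_iff.1 hV
    obtain ⟨g, hg1, hg2⟩ := urys (isClosed_singleton (x := y)) hV'o (singleton_subset_iff.2 hyV')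
    filter_upwards [main y g (hg1 y rfl)] with y' hy'
    apply hV'V
    apply hg2
    intro h0
    rw [h0] at hy'
    simp at hy'
    linarith

end final

end Pool.Agent.Lib37
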