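import Mathlib
import Pool.Agent.Lib37.Third
import Pool.Agent.Lib37.Reduce

set_option autoImplicit false
open Set Topology Filter

namespace Pool.Agent.Lib37

/-- A space is countably paracompact if every countable open cover has a locally finite open
refinement. -/
def CountablyParacompact (X : Type) [TopologicalSpace X] : Prop :=
  ∀ V : ℕ → Set X, (∀ n, IsOpen (V n)) → (⋃ n, V n) = univ →
    ∃ (β : Type) (t : β → Set X), (∀ b, IsOpen (t b)) ∧ (⋃ b, t b) = univ ∧
      LocallyFinite t ∧ ∀ b, ∃ n, t b ⊆ V n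

lemma shrinks_of_cp {X : Type} [TopologicalSpace X] [NormalSpace X] (h : CountablyParacompact X) :
    Shrinks X := by
  intro V hV hVc
  obtain ⟨β, t, ht1, ht2, ht3, ht4⟩ := h V hV (by
    ext x
    simpa using hVc x)
  choose m hm using ht4
  let w : ℕ → Set X := fun n => ⋃ b : {b // m b = n}, t b
  obtain ⟨E, hE1, hE2, hE3⟩ := exists_iUnion_eq_closed_subset (u := w)
    (fun n => isOpen_iUnion fun b => ht1 b.1) (by
      intro x
      refine ((ht3.point_finite x).image m).subset ?_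
      intro n hn
      obtain ⟨b, hb⟩ := mem_iUnion.1 hn
      exact ⟨b.1, hb, b.2⟩) (by
      apply eq_univ_of_forall
      intro x
      have : x ∈ ⋃ b, t b := by rw [ht2]; trivial
      obtain ⟨b, hb⟩ := mem_iUnion.1 this
      exact mem_iUnion.2 ⟨m b, mem_iUnion.2 ⟨⟨b, rfl⟩, hb⟩⟩)
  refine ⟨E, hE2, ?_, ?_⟩
  · intro n x hx
    obtain ⟨b, hb⟩ := mem_iUnion.1 (hE3 n hx)
    have := hm b.1 hb
    rwa [b.2] at this
  · intro x
    have : x ∈ ⋃ n, E n := by rw [hE1]; trivial
    exact mem_iUnion.1 this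

lemma Shrinks.image {X Y : Type} [TopologicalSpace X] [TopologicalSpace Y] (h : Shrinks X)
    {f : X → Y} (hfc : Continuous f) (hf : IsClosedMap f) (hsurj : Function.Surjective f) :
    Shrinks Y := by
  intro V hV hVc
  obtain ⟨E, hE1, hE2, hE3⟩ := h (fun n => f ⁻¹' V n) (fun n => (hV n).preimage hfc)
    (fun x => hVc (f x))
  refine ⟨fun n => f '' E n, fun n => hf _ (hE1 n), ?_, ?_⟩
  · rintro n _ ⟨x, hx, rfl⟩
    exact hE2 n hx
  · intro y
    obtain ⟨x, rfl⟩ := hsurj y
    obtain ⟨n, hn⟩ := hE3 x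
    exact ⟨n, x, hn, rfl⟩

lemma normal_image {X Y : Type} [TopologicalSpace X] [TopologicalSpace Y] [NormalSpace X]
    {f : X → Y} (hfc : Continuous f) (hf : IsClosedMap f) (hsurj : Function.Surjective f) :
    NormalSpace Y := by
  refine ⟨fun A B hA hB hAB => ?_⟩
  have h1 : Disjoint (f ⁻¹' A) (f ⁻¹' B) := hAB.preimage f
  obtain ⟨U, V, hU, hV, hAU, hBV, hUV⟩ :=
    normal_separation (hA.preimage hfc) (hB.preimage hfc) h1
  refine ⟨kernImage f U, kernImage f V, isClosedMap_iff_kernImage.1 hf hU,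
    isClosedMap_iff_kernImage.1 hf hV, ?_, ?_, ?_⟩
  · intro y hy x hx
    exact hAU (by rw [mem_preimage, hx]; exact hy)
  · intro y hy x hx
    exact hBV (by rw [mem_preimage, hx]; exact hy)
  · rw [disjoint_left]
    intro y hyU hyV
    obtain ⟨x, hx⟩ := hsurj y
    exact disjoint_left.1 hUV (hyU hx) (hyV hx)

lemma t1_image {X Y : Type} [TopologicalSpace X] [TopologicalSpace Y] [T1Space X]
    {f : X → Y} (hf : IsClosedMap f) (hsurj : Function.Surjective f) :
    T1Space Y := by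
  refine ⟨fun y => ?_⟩
  obtain ⟨x, rfl⟩ := hsurj y
  have := hf {x} isClosed_singleton
  simpa using this

/-- `X` embeds in some `c₀(Γ)` with the pointwise topology. -/
def EmbC0 (X : Type) [TopologicalSpace X] : Prop :=
  ∃ (Γ : Type) (e : X → (Γ → ℝ)), IsEmbedding e ∧ ∀ x, Tendsto (e x) cofinite (𝓝 0)

theorem embC0_of_openPF {X Y : Type} [TopologicalSpace X] [TopologicalSpace Y] [NormalSpace Y]
    (hX : EmbC0 X) {f : X → Y} (hf : IsProperMap f) (hsurj : Function.Surjective f)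
    (hY : OpenPF Y) : EmbC0 Y := by
  obtain ⟨Γ, e, he, h0⟩ := hX
  obtain ⟨I, X', _, s, rk, π, hs, hπ, hπs⟩ := exists_zeroDim e he.isInducing h0
  haveI : T2Space X := he.t2Space
  haveI : T1Space Y := t1_image hf.isClosedMap hsurj
  have hf' : IsProperMap (f ∘ π) := hf.comp hπ
  have hs' : Function.Surjective (f ∘ π) := hsurj.comp hπs
  obtain ⟨A, u, Λ, lev, h1, h2⟩ := firstHalf hs hf' hs' hY
  exact secondHalf hs hf' hs' u Λ lev h1 h2

theorem embC0_of_shrinks {X Y : Type} [TopologicalSpace X] [TopologicalSpace Y] [NormalSpace Y]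
    (hX : EmbC0 X) {f : X → Y} (hf : IsProperMap f) (hsurj : Function.Surjective f)
    (hY : Shrinks Y) : EmbC0 Y := by
  obtain ⟨Γ, e, he, h0⟩ := hX
  obtain ⟨I, X', _, s, rk, π, hs, hπ, hπs⟩ := exists_zeroDim e he.isInducing h0
  haveI : T2Space X := he.t2Space
  haveI : T1Space Y := t1_image hf.isClosedMap hsurj
  have hf' : IsProperMap (f ∘ π) := hf.comp hπ
  have hs' : Function.Surjective (f ∘ π) := hsurj.comp hπs
  obtain ⟨A, u, Λ, lev, h1, h2⟩ := firstHalf hs hf' hs' (openPF_of_shrinks hs hf' hs' hY)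
  exact secondHalf hs hf' hs' u Λ lev h1 h2

end Pool.Agent.Lib37
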