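import Mathlib
import Pool.Agent.Lib37.Main

set_option autoImplicit false
open Set Topology Filter

namespace Pool.Agent.Lib37

/-- A cozero set. -/
def IsCozero {Y : Type} [TopologicalSpace Y] (U : Set Y) : Prop :=
  ∃ g : C(Y, ℝ), U = {y | g y ≠ 0}

/-- Every increasing countable open cover has a `σ`-point-finite refinement by cozero sets. -/
def CoversPF (Y : Type) [TopologicalSpace Y] : Prop :=
  ∀ V : ℕ → Set Y, (∀ n, IsOpen (V n)) → Monotone V → (⋃ n, V n) = univ →
    ∃ W : ℕ → Set (Set Y), (∀ m, ∀ U ∈ W m, IsCozero U ∧ ∃ n, U ⊆ V n) ∧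
      (∀ m y, {U | U ∈ W m ∧ y ∈ U}.Finite) ∧ ∀ y, ∃ m, ∃ U ∈ W m, y ∈ U

section

variable {I X Y : Type} [TopologicalSpace X] [TopologicalSpace Y]
variable {s : X → Set I} {rk : I → ℕ} {f : X → Y}

theorem openPF_of_coversPF [NormalSpace Y] [T1Space Y] (hs : Str s rk) (hf : IsProperMap f)
    (hsurj : Function.Surjective f) (hY : CoversPF Y) : OpenPF Y := by
  classical
  intro D hD
  obtain ⟨ι, _, _, e, he1, he2⟩ : ∃ (ι : Type) (_ : LinearOrder ι) (_ : WellFoundedLT ι)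
      (e : ι → C(Y, unitInterval)), (∀ ξ y, e ξ y ≠ 0 → y ∈ D) ∧
      ∀ g : C(Y, unitInterval), (∀ y, g y ≠ 0 → y ∈ D) → ∃ ξ, e ξ = g := by
    obtain ⟨a, b, _⟩ := Cardinal.exists_ord_eq_type_lt
      {g : C(Y, unitInterval) // ∀ y, g y ≠ 0 → y ∈ D}
    exact ⟨{g : C(Y, unitInterval) // ∀ y, g y ≠ 0 → y ∈ D}, a, b, Subtype.val,
      fun ξ => ξ.2, fun g hg => ⟨⟨g, hg⟩, rfl⟩⟩
  have hO : ∀ g : ι, IsOpen {y | e g y ≠ 0} := by
    intro g
    exact isOpen_ne_fun (e g).continuous continuous_const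
  obtain ⟨E, hEo, hEf, hEm, hEc⟩ := layers hs hf hsurj (fun g : ι => {y | e g y ≠ 0}) hO
  let L : ι → ℕ → Set Y := fun g m =>
    {y | (1 : ℝ) / (m + 1) ≤ (e g y : ℝ)} \ ⋃ g' : {g' : ι // g' < g}, {y | e g'.1 y ≠ 0}
  have hL : ∀ g m, IsClosed (L g m) := by
    intro g m
    refine IsClosed.sdiff (isClosed_le continuous_const ?_) (isOpen_iUnion fun g' => hO g'.1)
    exact continuous_subtype_val.comp (e g).continuous
  have hLD : ∀ g m, L g m ⊆ {y | e g y ≠ 0} := by
    intro g m y hy h0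
    have h1 : (1 : ℝ) / (m + 1) ≤ (e g y : ℝ) := hy.1
    rw [h0] at h1
    have : (0 : ℝ) < 1 / (m + 1) := by positivity
    simp at h1
    linarith
  have hLmin : ∀ g m y, y ∈ L g m → ∀ g' < g, y ∉ {y | e g' y ≠ 0} := by
    intro g m y hy g' hg' hy'
    exact hy.2 (mem_iUnion.2 ⟨⟨g', hg'⟩, hy'⟩)
  -- a `σ`-point-finite refinement for each layer
  have key : ∀ g m, ∃ W : ℕ → Set (Set Y),
      (∀ n, ∀ U ∈ W n, IsCozero U ∧ ∃ k, U ⊆ E k g ∪ (L g m)ᶜ) ∧
      (∀ n y, {U | U ∈ W n ∧ y ∈ U}.Finite) ∧ ∀ y, ∃ n, ∃ U ∈ W n, y ∈ U := by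
    intro g m
    refine hY (fun k => E k g ∪ (L g m)ᶜ) (fun k => (hEo k g).union (hL g m).isOpen_compl) ?_ ?_
    · intro k k' hkk'
      exact union_subset_union_left _ (hEm g hkk')
    · apply eq_univ_of_forall
      intro y
      by_cases hy : y ∈ L g m
      · obtain ⟨k, hk⟩ := hEc g y (hLD g m hy) (hLmin g m y hy)
        exact mem_iUnion.2 ⟨k, Or.inl hk⟩
      · exact mem_iUnion.2 ⟨0, Or.inr hy⟩
  choose W hW1 hW2 hW3 using key
  -- functions
  have hv : ∀ (g : ι) (U : Set Y) (N : ((ℕ × ℕ) × (ℕ × ℕ))), ∃ v : C(Y, unitInterval),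
      (∀ y, v y ≠ 0 → y ∈ E N.2.2 g ∩ {y | e g y ≠ 0} ∩ U ∧ U ∈ W g N.1.1 N.1.2) ∧
      (∀ hU : U ∈ W g N.1.1 N.1.2, U ⊆ E N.2.2 g ∪ (L g N.1.1)ᶜ →
        ∀ y ∈ L g N.1.1, (1 : ℝ) / (N.2.1 + 1) ≤ |(hW1 g N.1.1 N.1.2 U hU).1.choose y| →
          v y = 1) := by
    rintro g U ⟨⟨m, n⟩, ⟨j, k⟩⟩
    by_cases hU : U ∈ W g m n
    · by_cases hUk : U ⊆ E k g ∪ (L g m)ᶜ
      · let h := (hW1 g m n U hU).1.choose
        have hh : U = {y | h y ≠ 0} := (hW1 g m n U hU).1.choose_spec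
        have hUo : IsOpen U := by
          rw [hh]
          exact isOpen_ne_fun h.continuous continuous_const
        have hcl : IsClosed ({y | (1 : ℝ) / (j + 1) ≤ |h y|} ∩ L g m) :=
          (isClosed_le continuous_const (h.continuous.abs)).inter (hL g m)
        obtain ⟨v, hv1, hv2⟩ := urys hcl (((hEo k g).inter (hO g)).inter hUo) (by
          rintro y ⟨hy1, hy2⟩
          have hyU : y ∈ U := by
            rw [hh]
            intro h0
            have h3 : (1 : ℝ) / (j + 1) ≤ |h y| := hy1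
            rw [h0, abs_zero] at h3
            have : (0 : ℝ) < 1 / (j + 1) := by positivity
            linarith
          refine ⟨⟨?_, hLD g m hy2⟩, hyU⟩
          rcases hUk hyU with h' | h'
          · exact h'
          · exact absurd hy2 h')
        exact ⟨v, fun y hy => ⟨hv2 y hy, hU⟩, fun _ _ y hy1 hy2 => hv1 y ⟨hy2, hy1⟩⟩
      · exact ⟨0, by simp, fun _ hc => absurd hc hUk⟩
    · exact ⟨0, by simp, fun hc => absurd hc hU⟩
  choose v hv1 hv2 using hv
  let dec : ℕ → (ℕ × ℕ) × (ℕ × ℕ) := fun N =>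
    ((N.unpair.1.unpair.1, N.unpair.1.unpair.2), (N.unpair.2.unpair.1, N.unpair.2.unpair.2))
  refine ⟨ι × Set Y, fun ξ N => v ξ.1 ξ.2 (dec N), ?_, ?_, ?_⟩
  · intro ξ N y hy
    exact he1 ξ.1 y (hv1 _ _ _ y hy).1.1.2
  · intro N y
    refine ((hEf (dec N).2.2 y).biUnion (t := fun g => (fun U => (g, U)) ''
      {U | U ∈ W g (dec N).1.1 (dec N).1.2 ∧ y ∈ U}) fun g _ => (hW2 _ _ _ _).image _).subset ?_
    rintro ⟨g, U⟩ hgU
    obtain ⟨⟨⟨h1, h2⟩, h3⟩, h4⟩ := hv1 g U (dec N) y hgU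
    exact mem_biUnion (x := g) h1 ⟨U, ⟨h4, h3⟩, rfl⟩
  · intro y hy
    obtain ⟨g₀, hg₀, hg₀'⟩ := urys (isClosed_singleton (x := y)) hD (singleton_subset_iff.2 hy)
    have hne : {g : ι | e g y ≠ 0}.Nonempty := by
      obtain ⟨ξ, hξ⟩ := he2 g₀ hg₀'
      refine ⟨ξ, ?_⟩
      have : g₀ y = 1 := hg₀ y rfl
      simp [hξ, this]
    let g := wellFounded_lt.min {g : ι | e g y ≠ 0} hne
    have hg : e g y ≠ 0 := wellFounded_lt.min_mem {g : ι | e g y ≠ 0} hne
    have hgm : ∀ g' < g, e g' y = 0 := by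
      intro g' hg'
      by_contra hcon
      exact wellFounded_lt.not_lt_min {g : ι | e g y ≠ 0} hcon hg'
    have hpos : (0 : ℝ) < (e g y : ℝ) := by
      have h1 := (e g y).2.1
      rcases h1.lt_or_eq with h | h
      · exact h
      · exact absurd (Subtype.ext h.symm) hg
    obtain ⟨m, hm⟩ := exists_nat_one_div_lt hpos
    have hyL : y ∈ L g m := by
      refine ⟨hm.le, ?_⟩
      intro hcon
      obtain ⟨g', hg'⟩ := mem_iUnion.1 hcon
      exact hg' (hgm g'.1 g'.2)
    obtain ⟨n, U, hU, hyU⟩ := hW3 g m y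
    obtain ⟨k, hk⟩ := (hW1 g m n U hU).2
    have hh : U = {y | (hW1 g m n U hU).1.choose y ≠ 0} := (hW1 g m n U hU).1.choose_spec
    have hpos2 : 0 < |(hW1 g m n U hU).1.choose y| := by
      rw [abs_pos]
      have h5 := hyU
      rw [hh] at h5
      exact h5
    obtain ⟨j, hj⟩ := exists_nat_one_div_lt hpos2
    refine ⟨(g, U), Nat.pair (Nat.pair m n) (Nat.pair j k), ?_⟩
    have hdec : dec (Nat.pair (Nat.pair m n) (Nat.pair j k)) = ((m, n), (j, k)) := by
      simp [dec]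
    simp only [hdec]
    rw [hv2 g U ((m, n), (j, k)) hU hk y hyL hj.le]
    exact one_ne_zero

end

section c0

variable {Y Γ : Type} [TopologicalSpace Y]

/-- In a `c₀`-space, every countable family of open sets has a `σ`-point-finite cozero refinement
with the same union. -/
theorem refine_c0 (e : Y → (Γ → ℝ)) (he : IsInducing e)
    (h0 : ∀ y, Tendsto (e y) cofinite (𝓝 0)) (V : ℕ → Set Y) (hV : ∀ n, IsOpen (V n)) :
    ∃ W : ℕ → Set (Set Y), (∀ m, ∀ U ∈ W m, IsCozero U ∧ ∃ n, U ⊆ V n) ∧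
      (∀ m y, {U | U ∈ W m ∧ y ∈ U}.Finite) ∧ ∀ n, ∀ y ∈ V n, ∃ m, ∃ U ∈ W m, y ∈ U := by
  classical
  have hec : ∀ γ, Continuous fun y => e y γ := fun γ => (continuous_apply γ).comp he.continuous
  let bx : (Γ →₀ ℚ) → ℚ → ℚ → Finset Γ → Set Y := fun r δ η b =>
    {y | (∀ γ ∈ r.support, |e y γ - r γ| < δ) ∧ ∀ γ ∈ b, |e y γ| < η}
  have hbxc : ∀ r δ η b, IsCozero (bx r δ η b) := by
    intro r δ η b
    refine ⟨⟨fun y => (∏ γ ∈ r.support, max 0 ((δ : ℝ) - |e y γ - r γ|)) *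
      ∏ γ ∈ b, max 0 ((η : ℝ) - |e y γ|), ?_⟩, ?_⟩
    · refine Continuous.mul (continuous_finset_prod _ fun γ _ => ?_)
        (continuous_finset_prod _ fun γ _ => ?_)
      · exact continuous_const.max (continuous_const.sub (((hec γ).sub continuous_const).abs))
      · exact continuous_const.max (continuous_const.sub ((hec γ).abs))
    · ext y
      simp only [bx, mem_setOf_eq, ContinuousMap.coe_mk, ne_eq, mul_eq_zero, not_or,
        Finset.prod_eq_zero_iff, not_exists, not_and]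
      have aux : ∀ t : ℝ, ¬ (max 0 t = 0) ↔ 0 < t := by
        intro t
        constructor
        · intro h
          by_contra hcon
          exact h (max_eq_left (not_lt.1 hcon))
        · intro h hcon
          have := le_max_right (0 : ℝ) t
          linarith
      simp only [aux, sub_pos]
  let Ok : (Γ →₀ ℚ) → ℚ → ℚ → Prop := fun r δ η =>
    ∃ b : Finset Γ, Disjoint r.support b ∧ ∃ n, bx r δ η b ⊆ V n
  have hch : ∀ r δ η, ∃ b : Finset Γ, Ok r δ η → Disjoint r.support b ∧ ∃ n, bx r δ η b ⊆ V n := by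
    intro r δ η
    by_cases h : Ok r δ η
    · obtain ⟨b, hb⟩ := h
      exact ⟨b, fun _ => hb⟩
    · exact ⟨∅, fun h' => absurd h' h⟩
  choose b hb using hch
  let Lv : ℕ → (Γ →₀ ℚ) → ℚ → ℚ → Prop := fun m r δ η =>
    Encodable.encode δ ≤ m ∧ Encodable.encode η ≤ m ∧ (∀ γ ∈ r.support,
      Encodable.encode (r γ) ≤ m ∧ (1 : ℝ) / (m + 1) ≤ |(r γ : ℝ)| - δ)
  refine ⟨fun m => {U | ∃ r δ η, Ok r δ η ∧ Lv m r δ η ∧ U = bx r δ η (b r δ η)}, ?_, ?_, ?_⟩
  · rintro m U ⟨r, δ, η, hOk, _, rfl⟩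
    exact ⟨hbxc _ _ _ _, (hb r δ η hOk).2⟩
  · intro m y
    have hSfin : {γ : Γ | (1 : ℝ) / (m + 1) ≤ |e y γ|}.Finite := by
      have h2 := (Metric.tendsto_nhds.1 (h0 y)) ((1 : ℝ) / (m + 1)) (by positivity)
      rw [eventually_cofinite] at h2
      refine h2.subset ?_
      intro γ hγ
      simpa using hγ
    have hQfin : {q : ℚ | Encodable.encode q ≤ m}.Finite := by
      refine Set.Finite.of_finite_image (f := Encodable.encode) ((finite_Iic m).subset ?_)
        (Encodable.encode_injective.injOn)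
      rintro _ ⟨q, hq, rfl⟩
      exact hq
    have hrfin : {r : Γ →₀ ℚ | (∀ γ ∈ r.support, γ ∈ {γ : Γ | (1 : ℝ) / (m + 1) ≤ |e y γ|}) ∧
        ∀ γ ∈ r.support, r γ ∈ {q : ℚ | Encodable.encode q ≤ m}}.Finite := by
      refine ((hSfin.toFinset.finsupp (fun _ => insert 0 hQfin.toFinset)).finite_toSet).subset ?_
      rintro r ⟨h1, h2⟩
      rw [Finset.mem_coe, Finset.mem_finsupp_iff]
      refine ⟨fun γ hγ => (Finite.mem_toFinset _).2 (h1 γ hγ), ?_⟩
      intro γ _
      by_cases hγ : γ ∈ r.support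
      · exact Finset.mem_insert_of_mem ((Finite.mem_toFinset _).2 (h2 γ hγ))
      · rw [Finsupp.notMem_support_iff.1 hγ]
        exact Finset.mem_insert_self _ _
    refine ((hrfin.prod (hQfin.prod hQfin)).image
      (fun q => bx q.1 q.2.1 q.2.2 (b q.1 q.2.1 q.2.2))).subset ?_
    rintro U ⟨⟨r, δ, η, hOk, ⟨h1, h2, h3⟩, rfl⟩, hyU⟩
    refine ⟨(r, δ, η), ⟨⟨?_, fun γ hγ => (h3 γ hγ).1⟩, h1, h2⟩, rfl⟩
    intro γ hγ
    have h4 := hyU.1 γ hγ
    have h5 := (h3 γ hγ).2
    simp only [mem_setOf_eq]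
    have h6 : |(r γ : ℝ)| ≤ |e y γ| + |e y γ - r γ| := by
      have := abs_sub_abs_le_abs_sub (r γ : ℝ) (e y γ)
      rw [abs_sub_comm] at this
      linarith
    linarith
  · intro n y hy
    -- basic neighbourhood
    have hnb : ∃ (F : Finset Γ) (ε : ℝ), 0 < ε ∧ ∀ y', (∀ γ ∈ F, |e y' γ - e y γ| < ε) → y' ∈ V n := by
      have h1 : V n ∈ comap e (𝓝 (e y)) := by
        rw [← he.nhds_eq_comap]
        exact (hV n).mem_nhds hy
      obtain ⟨O, hO, hOV⟩ := mem_comap.1 h1
      obtain ⟨O', hO'O, hO'o, hyO'⟩ := mem_nhds_iff.1 hO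
      obtain ⟨F, u, hu1, hu2⟩ := isOpen_pi_iff.1 hO'o (e y) hyO'
      have h2 : ∀ γ ∈ F, ∃ ε : ℝ, 0 < ε ∧ ∀ t, |t - e y γ| < ε → t ∈ u γ := by
        intro γ hγ
        obtain ⟨ε, hε, hball⟩ := Metric.isOpen_iff.1 (hu1 γ hγ).1 _ (hu1 γ hγ).2
        exact ⟨ε, hε, fun t ht => hball (by simpa [Real.dist_eq] using ht)⟩
      choose! ε hε1 hε2 using h2
      rcases F.eq_empty_or_nonempty with hF | hF
      · refine ⟨∅, 1, one_pos, fun y' _ => hOV (hO'O (hu2 ?_))⟩
        rw [hF]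
        intro γ hγ
        simp at hγ
      · refine ⟨F, F.inf' hF ε, ?_, ?_⟩
        · rw [Finset.lt_inf'_iff]
          exact hε1
        · intro y' hy'
          apply hOV
          apply hO'O
          apply hu2
          intro γ hγ
          exact hε2 γ hγ _ (lt_of_lt_of_le (hy' γ hγ) (Finset.inf'_le _ hγ))
    obtain ⟨F, ε, hε, hF⟩ := hnb
    obtain ⟨η, hη0, hηε⟩ := exists_rat_btwn (show (0 : ℝ) < ε / 2 by positivity)
    have hη0' : (0 : ℝ) < η := by exact_mod_cast hη0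
    obtain ⟨δ, hδ0, hδη⟩ := exists_rat_btwn (show (0 : ℝ) < η / 4 by positivity)
    have hδ0' : (0 : ℝ) < δ := by exact_mod_cast hδ0
    have hafin : {γ : Γ | (η : ℝ) ≤ |e y γ|}.Finite := by
      have h2 := (Metric.tendsto_nhds.1 (h0 y)) (η : ℝ) hη0'
      rw [eventually_cofinite] at h2
      refine h2.subset ?_
      intro γ hγ
      simpa using hγ
    have hr : ∀ γ, ∃ q : ℚ, |e y γ - q| < δ := by
      intro γ
      obtain ⟨q, hq1, hq2⟩ := exists_rat_btwn (show e y γ - δ < e y γ by linarith)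
      refine ⟨q, ?_⟩
      rw [abs_lt]
      constructor <;> linarith
    choose q hq using hr
    let a := hafin.toFinset
    let r : Γ →₀ ℚ := Finsupp.onFinset a (fun γ => if γ ∈ a then q γ else 0) (by
      intro γ hγ
      by_contra hcon
      exact hγ (if_neg hcon))
    have hqa : ∀ γ ∈ a, 3 * (η : ℝ) / 4 < |(q γ : ℝ)| := by
      intro γ hγ
      have h1 : (η : ℝ) ≤ |e y γ| := (Finite.mem_toFinset hafin).1 hγ
      have h2 := hq γ
      have h3 := abs_sub_abs_le_abs_sub (e y γ) (q γ : ℝ)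
      linarith
    have hrs : r.support = a := by
      ext γ
      rw [Finsupp.mem_support_iff]
      constructor
      · intro h
        by_contra hcon
        apply h
        simp only [r, Finsupp.onFinset_apply]
        exact if_neg hcon
      · intro h
        simp only [r, Finsupp.onFinset_apply, if_pos h]
        intro h0
        have := hqa γ h
        rw [h0] at this
        simp at this
        linarith
    have hrq : ∀ γ ∈ a, r γ = q γ := by
      intro γ hγ
      simp only [r, Finsupp.onFinset_apply, if_pos hγ]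
    have hOk : Ok r δ η := by
      refine ⟨F \ a, ?_, n, ?_⟩
      · rw [hrs]
        exact Finset.disjoint_sdiff
      · rintro y' ⟨h1, h2⟩
        apply hF
        intro γ hγ
        by_cases hγa : γ ∈ a
        · have h3 := h1 γ (by rw [hrs]; exact hγa)
          rw [hrq γ hγa] at h3
          have h4 := hq γ
          have h5 : |e y' γ - e y γ| ≤ |e y' γ - q γ| + |e y γ - q γ| := by
            rw [abs_sub_comm (e y γ) (q γ : ℝ)]
            exact abs_sub_le _ _ _
          linarith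
        · have h3 := h2 γ (Finset.mem_sdiff.2 ⟨hγ, hγa⟩)
          have h4 : |e y γ| < η := by
            by_contra hcon
            exact hγa ((Finite.mem_toFinset _).2 (not_lt.1 hcon))
          have h5 := abs_sub (e y' γ) (e y γ)
          linarith
    obtain ⟨hb1, _⟩ := hb r δ η hOk
    have hybx : y ∈ bx r δ η (b r δ η) := by
      constructor
      · intro γ hγ
        rw [hrs] at hγ
        rw [hrq γ hγ]
        exact hq γ
      · intro γ hγ
        by_contra hcon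
        have h1 : γ ∈ a := (Finite.mem_toFinset _).2 (not_lt.1 hcon)
        rw [← hrs] at h1
        exact Finset.disjoint_left.1 hb1 h1 hγ
    -- a level
    obtain ⟨m₁, hm₁⟩ := exists_nat_one_div_lt (show (0 : ℝ) < η / 2 by positivity)
    let m : ℕ := max m₁ (max (Encodable.encode δ) (max (Encodable.encode η)
      (a.sup fun γ => Encodable.encode (r γ))))
    refine ⟨m, bx r δ η (b r δ η), ⟨r, δ, η, hOk, ⟨?_, ?_, ?_⟩, rfl⟩, hybx⟩
    · exact (le_max_left _ _).trans (le_max_right _ _)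
    · exact (le_max_left _ _).trans ((le_max_right _ _).trans (le_max_right _ _))
    · intro γ hγ
      rw [hrs] at hγ
      constructor
      · exact (Finset.le_sup (f := fun γ => Encodable.encode (r γ)) hγ).trans
          ((le_max_right _ _).trans ((le_max_right _ _).trans (le_max_right _ _)))
      · have h1 : (1 : ℝ) / (m + 1) ≤ 1 / (m₁ + 1) := by
          apply one_div_le_one_div_of_le (by positivity)
          have : (m₁ : ℝ) ≤ (m : ℝ) := by exact_mod_cast le_max_left _ _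
          linarith
        have h2 := hqa γ hγ
        rw [hrq γ hγ]
        linarith

end c0

theorem EmbC0.coversPF {Y : Type} [TopologicalSpace Y] (h : EmbC0 Y) : CoversPF Y := by
  obtain ⟨Γ, e, he, h0⟩ := h
  intro V hV _ hVc
  obtain ⟨W, h1, h2, h3⟩ := refine_c0 e he.isInducing h0 V hV
  refine ⟨W, h1, h2, fun y => ?_⟩
  have : y ∈ ⋃ n, V n := by rw [hVc]; trivial
  obtain ⟨n, hn⟩ := mem_iUnion.1 this
  exact h3 n y hn

theorem embC0_of_coversPF {X Y : Type} [TopologicalSpace X] [TopologicalSpace Y] [NormalSpace Y]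
    (hX : EmbC0 X) {f : X → Y} (hf : IsProperMap f) (hsurj : Function.Surjective f)
    (hY : CoversPF Y) : EmbC0 Y := by
  obtain ⟨Γ, e, he, h0⟩ := hX
  obtain ⟨I, X', _, s, rk, π, hs, hπ, hπs⟩ := exists_zeroDim e he.isInducing h0
  have : T2Space X := he.t2Space
  have : T1Space Y := t1_image hf.isClosedMap hsurj
  have hf' : IsProperMap (f ∘ π) := hf.comp hπ
  have hs' : Function.Surjective (f ∘ π) := hsurj.comp hπs
  obtain ⟨A, u, Λ, lev, h1, h2⟩ := firstHalf hs hf' hs' (openPF_of_coversPF hs hf' hs' hY)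
  exact secondHalf hs hf' hs' u Λ lev h1 h2

end Pool.Agent.Lib37
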