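import Mathlib
import Pool.Agent.Lib37.Criterion

set_option autoImplicit false
open Set Topology Filter

namespace Pool.Agent.Lib37

/-- `L` is good in `Y`: every increasing countable open cover of `L` has a `σ`-point-finite (in `Y`)
refinement by cozero sets of `Y` covering `L`. -/
def GoodIn {Y : Type} [TopologicalSpace Y] (L : Set Y) : Prop :=
  ∀ V : ℕ → Set Y, (∀ n, IsOpen (V n)) → Monotone V → (L ⊆ ⋃ n, V n) →
    ∃ W : ℕ → Set (Set Y), (∀ m, ∀ U ∈ W m, IsCozero U ∧ ∃ n, U ⊆ V n) ∧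
      (∀ m y, {U | U ∈ W m ∧ y ∈ U}.Finite) ∧ ∀ y ∈ L, ∃ m, ∃ U ∈ W m, y ∈ U

section

variable {Y : Type} [TopologicalSpace Y]

lemma isCozero_unit (v : C(Y, unitInterval)) : IsCozero {y | v y ≠ 0} := by
  refine ⟨⟨fun y => (v y : ℝ), continuous_subtype_val.comp v.continuous⟩, ?_⟩
  ext y
  simp only [mem_setOf_eq, ContinuousMap.coe_mk, ne_eq]
  rw [not_iff_not]
  constructor
  · intro h
    rw [h]; rfl
  · intro h
    exact Subtype.ext h

lemma IsCozero.isOpen {U : Set Y} (h : IsCozero U) : IsOpen U := by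
  obtain ⟨g, rfl⟩ := h
  exact isOpen_ne_fun g.continuous continuous_const

lemma GoodIn.mono [NormalSpace Y] {L L' : Set Y} (hL : GoodIn L) (hL' : IsClosed L')
    (hsub : L' ⊆ L) : GoodIn L' := by
  classical
  intro V hV hVm hVc
  obtain ⟨W, hW1, hW2, hW3⟩ := hL (fun n => V n ∪ L'ᶜ) (fun n => (hV n).union hL'.isOpen_compl)
    (fun n n' h => union_subset_union_left _ (hVm h)) (by
      intro y _
      by_cases hy : y ∈ L'
      · obtain ⟨n, hn⟩ := mem_iUnion.1 (hVc hy)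
        exact mem_iUnion.2 ⟨n, Or.inl hn⟩
      · exact mem_iUnion.2 ⟨0, Or.inr hy⟩)
  have hv : ∀ (m j : ℕ) (U : Set Y), ∃ v : C(Y, unitInterval), ∀ hU : U ∈ W m,
      (∃ n, ∀ y, v y ≠ 0 → y ∈ V n ∩ U) ∧
      ∀ y ∈ L', (1 : ℝ) / (j + 1) ≤ |(hW1 m U hU).1.choose y| → v y = 1 := by
    intro m j U
    by_cases hU : U ∈ W m
    · let h := (hW1 m U hU).1.choose
      have hh : U = {y | h y ≠ 0} := (hW1 m U hU).1.choose_spec
      obtain ⟨n, hn⟩ := (hW1 m U hU).2
      have hcl : IsClosed ({y | (1 : ℝ) / (j + 1) ≤ |h y|} ∩ L') :=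
        (isClosed_le continuous_const (h.continuous.abs)).inter hL'
      obtain ⟨v, hv1, hv2⟩ := urys hcl ((hV n).inter (hW1 m U hU).1.isOpen) (by
        rintro y ⟨hy1, hy2⟩
        have hyU : y ∈ U := by
          rw [hh]
          intro h0
          have h3 : (1 : ℝ) / (j + 1) ≤ |h y| := hy1
          rw [h0, abs_zero] at h3
          have : (0 : ℝ) < 1 / (j + 1) := by positivity
          linarith
        refine ⟨?_, hyU⟩
        rcases hn hyU with h' | h'
        · exact h'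
        · exact absurd hy2 h')
      exact ⟨v, fun _ => ⟨⟨n, hv2⟩, fun y hy1 hy2 => hv1 y ⟨hy2, hy1⟩⟩⟩
    · exact ⟨0, fun h => absurd h hU⟩
  choose v hv1 using hv
  refine ⟨fun N => (fun U => {y | v N.unpair.1 N.unpair.2 U y ≠ 0}) '' W N.unpair.1, ?_, ?_, ?_⟩
  · rintro N _ ⟨U, hU, rfl⟩
    refine ⟨isCozero_unit _, ?_⟩
    obtain ⟨n, hn⟩ := (hv1 _ N.unpair.2 U hU).1
    exact ⟨n, fun y hy => (hn y hy).1⟩
  · intro N y
    refine ((hW2 N.unpair.1 y).image (fun U => {y | v N.unpair.1 N.unpair.2 U y ≠ 0})).subset ?_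
    rintro _ ⟨⟨U, hU, rfl⟩, hy⟩
    obtain ⟨n, hn⟩ := (hv1 _ N.unpair.2 U hU).1
    exact ⟨U, ⟨hU, (hn y hy).2⟩, rfl⟩
  · intro y hy
    obtain ⟨m, U, hU, hyU⟩ := hW3 y (hsub hy)
    have hh : U = {y | (hW1 m U hU).1.choose y ≠ 0} := (hW1 m U hU).1.choose_spec
    have hpos2 : 0 < |(hW1 m U hU).1.choose y| := by
      rw [abs_pos]
      have h5 := hyU
      rw [hh] at h5
      exact h5
    obtain ⟨j, hj⟩ := exists_nat_one_div_lt hpos2
    refine ⟨Nat.pair m j, {y | v m j U y ≠ 0}, ?_, ?_⟩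
    · refine ⟨U, ?_, ?_⟩
      · simpa using hU
      · simp
    · have := (hv1 m j U hU).2 y hy hj.le
      simp only [mem_setOf_eq, this]
      exact one_ne_zero

/-- The image of a space in which countable covers shrink is good. -/
lemma goodIn_range [NormalSpace Y] {Z : Type} [TopologicalSpace Z] (hZ : Shrinks Z) {φ : Z → Y}
    (hφc : Continuous φ) (hφ : IsClosedMap φ) : GoodIn (range φ) := by
  intro V hV hVm hVc
  obtain ⟨E, hE1, hE2, hE3⟩ := hZ (fun n => φ ⁻¹' V n) (fun n => (hV n).preimage hφc) (by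
    intro z
    obtain ⟨n, hn⟩ := mem_iUnion.1 (hVc (mem_range_self z))
    exact ⟨n, hn⟩)
  have hv : ∀ n, ∃ v : C(Y, unitInterval), (∀ y ∈ φ '' E n, v y = 1) ∧ ∀ y, v y ≠ 0 → y ∈ V n := by
    intro n
    refine urys (hφ _ (hE1 n)) (hV n) ?_
    rintro _ ⟨z, hz, rfl⟩
    exact hE2 n hz
  choose v hv1 hv2 using hv
  refine ⟨fun n => {{y | v n y ≠ 0}}, ?_, ?_, ?_⟩
  · rintro n U rfl
    exact ⟨isCozero_unit _, n, hv2 n⟩
  · intro n y
    exact (finite_singleton {y | v n y ≠ 0}).subset fun U hU => hU.1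
  · rintro _ ⟨z, rfl⟩
    obtain ⟨n, hn⟩ := hE3 z
    refine ⟨n, _, rfl, ?_⟩
    simp only [mem_setOf_eq, hv1 n (φ z) ⟨z, hn, rfl⟩]
    exact one_ne_zero

end

section local_good

variable {I X Y : Type} [TopologicalSpace X] [TopologicalSpace Y]
variable {s : X → Set I} {rk : I → ℕ} {f : X → Y}

/-- Local goodness implies goodness. -/
lemma goodIn_of_local [NormalSpace Y] [T1Space Y] (hs : Str s rk) (hf : IsProperMap f)
    (hsurj : Function.Surjective f) {B : Set Y} (hB : IsClosed B)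
    (h : ∀ y ∈ B, ∃ N ∈ 𝓝 y, IsClosed N ∧ GoodIn (N ∩ B)) : GoodIn B := by
  classical
  intro V hV hVm hVc
  obtain ⟨ι, _, _, e, he1, he2⟩ : ∃ (ι : Type) (_ : LinearOrder ι) (_ : WellFoundedLT ι)
      (e : ι → C(Y, unitInterval)), (∀ ξ, ∃ N, IsClosed N ∧ GoodIn (N ∩ B) ∧
        ∀ y, e ξ y ≠ 0 → y ∈ N) ∧
      ∀ g : C(Y, unitInterval), (∃ N, IsClosed N ∧ GoodIn (N ∩ B) ∧
        ∀ y, g y ≠ 0 → y ∈ N) → ∃ ξ, e ξ = g := by
    obtain ⟨a, b, _⟩ := Cardinal.exists_ord_eq_type_lt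
      {g : C(Y, unitInterval) // ∃ N, IsClosed N ∧ GoodIn (N ∩ B) ∧ ∀ y, g y ≠ 0 → y ∈ N}
    exact ⟨{g : C(Y, unitInterval) // ∃ N, IsClosed N ∧ GoodIn (N ∩ B) ∧ ∀ y, g y ≠ 0 → y ∈ N},
      a, b, Subtype.val, fun ξ => ξ.2, fun g hg => ⟨⟨g, hg⟩, rfl⟩⟩
  have hO : ∀ g : ι, IsOpen {y | e g y ≠ 0} := by
    intro g
    exact isOpen_ne_fun (e g).continuous continuous_const
  obtain ⟨E, hEo, hEf, hEm, hEc⟩ := layers hs hf hsurj (fun g : ι => {y | e g y ≠ 0}) hO
  let L : ι → ℕ → Set Y := fun g m =>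
    (B ∩ {y | (1 : ℝ) / (m + 1) ≤ (e g y : ℝ)}) \ ⋃ g' : {g' : ι // g' < g}, {y | e g'.1 y ≠ 0}
  have hL : ∀ g m, IsClosed (L g m) := by
    intro g m
    refine IsClosed.sdiff (hB.inter (isClosed_le continuous_const ?_))
      (isOpen_iUnion fun g' => hO g'.1)
    exact continuous_subtype_val.comp (e g).continuous
  have hLD : ∀ g m, L g m ⊆ {y | e g y ≠ 0} := by
    intro g m y hy h0
    have h1 : (1 : ℝ) / (m + 1) ≤ (e g y : ℝ) := hy.1.2
    rw [h0] at h1
    have : (0 : ℝ) < 1 / (m + 1) := by positivity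
    simp at h1
    linarith
  have hLmin : ∀ g m y, y ∈ L g m → ∀ g' < g, y ∉ {y | e g' y ≠ 0} := by
    intro g m y hy g' hg' hy'
    exact hy.2 (mem_iUnion.2 ⟨⟨g', hg'⟩, hy'⟩)
  have hLgood : ∀ g m, GoodIn (L g m) := by
    intro g m
    obtain ⟨N, _, hN2, hN3⟩ := he1 g
    exact hN2.mono (hL g m) fun y hy => ⟨hN3 y (hLD g m hy), hy.1.1⟩
  have key : ∀ g m, ∃ W : ℕ → Set (Set Y),
      (∀ n, ∀ U ∈ W n, IsCozero U ∧ ∃ k, U ⊆ E k g ∩ V k) ∧
      (∀ n y, {U | U ∈ W n ∧ y ∈ U}.Finite) ∧ ∀ y ∈ L g m, ∃ n, ∃ U ∈ W n, y ∈ U := by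
    intro g m
    refine hLgood g m (fun k => E k g ∩ V k) (fun k => (hEo k g).inter (hV k)) ?_ ?_
    · intro k k' hkk'
      exact inter_subset_inter (hEm g hkk') (hVm hkk')
    · intro y hy
      obtain ⟨k, hk⟩ := hEc g y (hLD g m hy) (hLmin g m y hy)
      obtain ⟨k', hk'⟩ := mem_iUnion.1 (hVc hy.1.1)
      exact mem_iUnion.2 ⟨max k k', hEm g (le_max_left _ _) hk, hVm (le_max_right _ _) hk'⟩
  choose W hW1 hW2 hW3 using key
  let dec : ℕ → (ℕ × ℕ) × ℕ := fun N => ((N.unpair.1.unpair.1, N.unpair.1.unpair.2), N.unpair.2)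
  refine ⟨fun N => {U | ∃ g, U ∈ W g (dec N).1.1 (dec N).1.2 ∧ U ⊆ E (dec N).2 g ∩ V (dec N).2},
    ?_, ?_, ?_⟩
  · rintro N U ⟨g, hU, hUs⟩
    exact ⟨(hW1 _ _ _ U hU).1, _, hUs.trans inter_subset_right⟩
  · intro N y
    refine ((hEf (dec N).2 y).biUnion (t := fun g =>
      {U | U ∈ W g (dec N).1.1 (dec N).1.2 ∧ y ∈ U}) fun g _ => hW2 _ _ _ _).subset ?_
    rintro U ⟨⟨g, hU, hUs⟩, hy⟩
    exact mem_biUnion (x := g) (hUs hy).1 ⟨hU, hy⟩
  · intro y hy
    have hne : {g : ι | e g y ≠ 0}.Nonempty := by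
      obtain ⟨N, hN, hNc, hNg⟩ := h y hy
      obtain ⟨O, hON, hO', hyO⟩ := mem_nhds_iff.1 hN
      obtain ⟨g₀, hg₀, hg₀'⟩ := urys (isClosed_singleton (x := y)) hO'
        (singleton_subset_iff.2 hyO)
      obtain ⟨ξ, hξ⟩ := he2 g₀ ⟨N, hNc, hNg, fun y hy => hON (hg₀' y hy)⟩
      refine ⟨ξ, ?_⟩
      have : g₀ y = 1 := hg₀ y rfl
      simp [hξ, this]
    let g := wellFounded_lt.min {g : ι | e g y ≠ 0} hne
    have hg : e g y ≠ 0 := wellFounded_lt.min_mem {g : ι | e g y ≠ 0} hne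
    have hgm : ∀ g' < g, e g' y = 0 := by
      intro g' hg'
      by_contra hcon
      exact wellFounded_lt.not_lt_min {g : ι | e g y ≠ 0} hcon hg'
    have hpos : (0 : ℝ) < (e g y : ℝ) := by
      have h1 := (e g y).2.1
      rcases h1.lt_or_eq with h | h
      · exact h
      · exact absurd (Subtype.ext h.symm) hg
    obtain ⟨m, hm⟩ := exists_nat_one_div_lt hpos
    have hyL : y ∈ L g m := by
      refine ⟨⟨hy, hm.le⟩, ?_⟩
      intro hcon
      obtain ⟨g', hg'⟩ := mem_iUnion.1 hcon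
      exact hg' (hgm g'.1 g'.2)
    obtain ⟨n, U, hU, hyU⟩ := hW3 g m y hyL
    obtain ⟨k, hk⟩ := (hW1 g m n U hU).2
    refine ⟨Nat.pair (Nat.pair m n) k, U, ⟨g, ?_, ?_⟩, hyU⟩
    · simpa [dec] using hU
    · simpa [dec] using hk

/-- If every nonempty closed set is somewhere locally good, then the whole space is good. -/
lemma goodIn_univ [NormalSpace Y] [T1Space Y] (hs : Str s rk) (hf : IsProperMap f)
    (hsurj : Function.Surjective f)
    (h : ∀ B : Set Y, IsClosed B → B.Nonempty → ∃ y ∈ B, ∃ N ∈ 𝓝 y, IsClosed N ∧ GoodIn (N ∩ B)) :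
    GoodIn (univ : Set Y) := by
  classical
  let B₀ : Set Y := {y | ∀ N ∈ 𝓝 y, IsClosed N → ¬ GoodIn N}
  have hB₀ : IsClosed B₀ := by
    rw [← isOpen_compl_iff, isOpen_iff_mem_nhds]
    intro y hy
    simp only [B₀, mem_compl_iff, mem_setOf_eq, not_forall, not_not] at hy
    obtain ⟨N, hN, hNc, hNg⟩ := hy
    filter_upwards [eventually_mem_nhds_iff.2 hN] with z hz
    simp only [B₀, mem_compl_iff, mem_setOf_eq, not_forall, not_not]
    exact ⟨N, hz, hNc, hNg⟩
  have hout : ∀ y, y ∉ B₀ → ∃ N ∈ 𝓝 y, IsClosed N ∧ GoodIn N := by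
    intro y hy
    simp only [B₀, mem_setOf_eq, not_forall, not_not] at hy
    obtain ⟨N, hN, hNc, hNg⟩ := hy
    exact ⟨N, hN, hNc, hNg⟩
  rcases B₀.eq_empty_or_nonempty with hemp | hne
  · refine goodIn_of_local hs hf hsurj isClosed_univ ?_
    intro y _
    obtain ⟨N, hN, hNc, hNg⟩ := hout y (by rw [hemp]; exact notMem_empty y)
    exact ⟨N, hN, hNc, by rwa [inter_univ]⟩
  · exfalso
    obtain ⟨y, hyB, N, hN, hNc, hNg⟩ := h B₀ hB₀ hne
    refine hyB N hN hNc ?_
    intro V hV hVm hVc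
    obtain ⟨W, hW1, hW2, hW3⟩ := hNg V hV hVm (inter_subset_left.trans hVc)
    let G : Set Y := ⋃ m, ⋃ U ∈ W m, U
    have hG : IsOpen G := isOpen_iUnion fun m => isOpen_biUnion fun U hU => (hW1 m U hU).1.isOpen
    have hcl : IsClosed (N \ G) := hNc.sdiff hG
    have hgood : GoodIn (N \ G) := by
      refine goodIn_of_local hs hf hsurj hcl ?_
      rintro z ⟨hzN, hzG⟩
      have hzB : z ∉ B₀ := by
        intro hzB
        obtain ⟨m, U, hU, hzU⟩ := hW3 z ⟨hzN, hzB⟩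
        exact hzG (mem_iUnion.2 ⟨m, mem_biUnion hU hzU⟩)
      obtain ⟨N', hN', hN'c, hN'g⟩ := hout z hzB
      exact ⟨N', hN', hN'c, hN'g.mono (hN'c.inter hcl) inter_subset_left⟩
    obtain ⟨W', hW'1, hW'2, hW'3⟩ := hgood V hV hVm (sdiff_subset.trans hVc)
    refine ⟨fun m => W m ∪ W' m, ?_, ?_, ?_⟩
    · rintro m U (hU | hU)
      · exact hW1 m U hU
      · exact hW'1 m U hU
    · intro m z
      refine ((hW2 m z).union (hW'2 m z)).subset ?_
      rintro U ⟨hU | hU, hz⟩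
      · exact Or.inl ⟨hU, hz⟩
      · exact Or.inr ⟨hU, hz⟩
    · intro z hz
      by_cases hzG : z ∈ G
      · obtain ⟨m, hm⟩ := mem_iUnion.1 hzG
        simp only [mem_iUnion, exists_prop] at hm
        obtain ⟨U, hU, hzU⟩ := hm
        exact ⟨m, U, Or.inl hU, hzU⟩
      · obtain ⟨m, U, hU, hzU⟩ := hW'3 z ⟨hz, hzG⟩
        exact ⟨m, U, Or.inr hU, hzU⟩

end local_good

section inj

variable {X Y : Type} [TopologicalSpace X] [TopologicalSpace Y] {f : X → Y}

/-- A closed set over a neighbourhood of which `f` is injective is good. -/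
lemma goodIn_of_inj (hX : EmbC0 X) (hf : IsProperMap f) (hsurj : Function.Surjective f)
    {O L : Set Y} (hO : IsOpen O) (hLO : L ⊆ O)
    (hinj : ∀ x x', f x = f x' → f x ∈ O → x = x') : GoodIn L := by
  classical
  obtain ⟨Γ, e, he, h0⟩ := hX
  intro V hV hVm hVc
  obtain ⟨W, hW1, hW2, hW3⟩ := refine_c0 e he.isInducing h0 (fun n => f ⁻¹' (V n ∩ O))
    (fun n => ((hV n).inter hO).preimage hf.continuous)
  have hq : IsQuotientMap f := hf.isClosedMap.isQuotientMap hf.continuous hsurj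
  have hcoz : ∀ m, ∀ U ∈ W m, IsCozero (f '' U) := by
    intro m U hU
    obtain ⟨⟨h, hh⟩, n, hn⟩ := hW1 m U hU
    have hconst : ∀ x x', f x = f x' → h x = h x' := by
      intro x x' hxx'
      by_cases hx : f x ∈ O
      · rw [hinj x x' hxx' hx]
      · have h1 : x ∉ U := fun hxU => hx (hn hxU).2
        have h2 : x' ∉ U := fun hxU => hx (by rw [hxx']; exact (hn hxU).2)
        rw [hh] at h1 h2
        simp only [mem_setOf_eq, not_not] at h1 h2
        rw [h1, h2]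
    let g := Function.surjInv hsurj
    have hg : ∀ y, f (g y) = y := Function.surjInv_eq hsurj
    have hcont : Continuous (fun y => h (g y)) := by
      rw [hq.continuous_iff]
      have : (fun y => h (g y)) ∘ f = h := by
        funext x
        exact hconst _ _ (hg (f x))
      rw [this]
      exact h.continuous
    refine ⟨⟨fun y => h (g y), hcont⟩, ?_⟩
    ext y
    simp only [mem_image, mem_setOf_eq, ContinuousMap.coe_mk]
    constructor
    · rintro ⟨x, hxU, rfl⟩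
      rw [hconst (g (f x)) x (hg (f x))]
      rw [hh] at hxU
      exact hxU
    · intro hy
      refine ⟨g y, ?_, hg y⟩
      rw [hh]
      exact hy
  refine ⟨fun m => (fun U => f '' U) '' W m, ?_, ?_, ?_⟩
  · rintro m _ ⟨U, hU, rfl⟩
    refine ⟨hcoz m U hU, ?_⟩
    obtain ⟨n, hn⟩ := (hW1 m U hU).2
    refine ⟨n, ?_⟩
    rintro _ ⟨x, hx, rfl⟩
    exact (hn hx).1
  · intro m y
    obtain ⟨x, hx⟩ := hsurj y
    refine ((hW2 m x).image (fun U => f '' U)).subset ?_
    rintro _ ⟨⟨U, hU, rfl⟩, x', hx', hxy⟩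
    refine ⟨U, ⟨hU, ?_⟩, rfl⟩
    obtain ⟨n, hn⟩ := (hW1 m U hU).2
    have : x' = x := hinj x' x (hxy.trans hx.symm) (hn hx').2
    rwa [← this]
  · intro y hy
    obtain ⟨n, hn⟩ := mem_iUnion.1 (hVc hy)
    obtain ⟨x, hx⟩ := hsurj y
    obtain ⟨m, U, hU, hxU⟩ := hW3 n x (by rw [mem_preimage, hx]; exact ⟨hn, hLO hy⟩)
    exact ⟨m, f '' U, ⟨U, hU, rfl⟩, x, hxU, hx⟩

end inj

/-- Every nonempty closed subspace has a point with a countably paracompact closed
neighbourhood. -/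
def CPScattered (Z : Type) [TopologicalSpace Z] : Prop :=
  ∀ B : Set Z, IsClosed B → B.Nonempty →
    ∃ z ∈ B, ∃ N ∈ 𝓝 z, IsClosed N ∧ CountablyParacompact ↥(N ∩ B)

section scattered

variable {X Y : Type} [TopologicalSpace X] [TopologicalSpace Y] {f : X → Y}

/-- closed irreducible restriction of a perfect map -/
lemma exists_irreducible (hf : IsProperMap f) {A : Set X} (hA : IsClosed A) {B : Set Y}
    (hAB : f '' A = B) : ∃ A' ⊆ A, IsClosed A' ∧ f '' A' = B ∧
      ∀ A'' ⊆ A', IsClosed A'' → f '' A'' = B → A'' = A' := by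
  classical
  obtain ⟨M, hMA, hM⟩ := zorn_superset_nonempty
    {A' : Set X | IsClosed A' ∧ f '' A' = B} (by
      intro c hc hchain hne
      refine ⟨⋂₀ c, ⟨isClosed_sInter fun A' hA' => (hc hA').1, ?_⟩, fun A' hA' => sInter_subset_of_mem hA'⟩
      apply Subset.antisymm
      · obtain ⟨A', hA'⟩ := hne
        rintro _ ⟨x, hx, rfl⟩
        rw [← (hc hA').2]
        exact ⟨x, hx A' hA', rfl⟩
      · intro y hy
        have hcomp := isCompact_fib hf y
        have : ({x | f x = y} ∩ ⋂ i : c, (i : Set X)).Nonempty := by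
          by_contra hcon
          rw [not_nonempty_iff_eq_empty] at hcon
          have hd : Directed (fun x1 x2 => x1 ⊇ x2) fun i : c => (i : Set X) := by
            intro a b
            rcases hchain.total a.2 b.2 with h | h
            · exact ⟨a, Subset.rfl, h⟩
            · exact ⟨b, h, Subset.rfl⟩
          haveI : Nonempty c := hne.to_subtype
          obtain ⟨i, hi⟩ := hcomp.elim_directed_family_closed _
            (fun i : c => (hc i.2).1) hcon hd
          have hy' := hy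
          rw [← (hc i.2).2] at hy'
          obtain ⟨x, hx, hxy⟩ := hy'
          have : x ∈ {x | f x = y} ∩ (i : Set X) := ⟨hxy, hx⟩
          rw [hi] at this
          exact this
        obtain ⟨x, hx, hx'⟩ := this
        refine ⟨x, ?_, hx⟩
        intro A' hA'
        exact mem_iInter.1 hx' ⟨A', hA'⟩) A ⟨hA, hAB⟩
  refine ⟨M, hMA, hM.prop.1, hM.prop.2, ?_⟩
  intro A'' hA'' hcl him
  exact Subset.antisymm hA'' (hM.le_of_le ⟨hcl, him⟩ hA'')

lemma exists_closed_nhd [NormalSpace Y] [T1Space Y] {O : Set Y} (hO : IsOpen O) {y : Y}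
    (hy : y ∈ O) : ∃ N ∈ 𝓝 y, IsClosed N ∧ N ⊆ O := by
  obtain ⟨N, h1, h2, h3⟩ := exists_mem_nhds_isClosed_subset (hO.mem_nhds hy)
  exact ⟨N, h1, h2, h3⟩

/-- transfer of the hypothesis along a perfect map -/
lemma local_of_cpScattered [NormalSpace X] [NormalSpace Y] [T1Space Y] (hf : IsProperMap f)
    (hsurj : Function.Surjective f) (hX : CPScattered X) (B : Set Y) (hB : IsClosed B)
    (hne : B.Nonempty) : ∃ y ∈ B, ∃ N ∈ 𝓝 y, IsClosed N ∧ GoodIn (N ∩ B) := by
  classical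
  obtain ⟨A, hAB, hA, hAim, hAirr⟩ := exists_irreducible hf (hB.preimage hf.continuous)
    (image_preimage_eq B hsurj)
  have hAne : A.Nonempty := by
    rw [← hAim] at hne
    exact hne.of_image
  obtain ⟨x, hxA, N, hN, hNc, hNcp⟩ := hX A hA hAne
  have hcl : IsClosed (A \ interior N) := hA.sdiff isOpen_interior
  have hneB : f '' (A \ interior N) ≠ B := by
    intro hcon
    have := hAirr _ sdiff_subset hcl hcon
    have h1 : x ∈ A \ interior N := by rw [this]; exact hxA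
    exact h1.2 (mem_interior_iff_mem_nhds.2 hN)
  have hsub : f '' (A \ interior N) ⊆ B := by
    rw [← hAim]
    exact image_mono sdiff_subset
  obtain ⟨y, hyB, hy⟩ : ∃ y ∈ B, y ∉ f '' (A \ interior N) := by
    by_contra hcon
    push Not at hcon
    exact hneB (Subset.antisymm hsub hcon)
  obtain ⟨N', hN', hN'c, hN'O⟩ := exists_closed_nhd (hf.isClosedMap _ hcl).isOpen_compl hy
  refine ⟨y, hyB, N', hN', hN'c, ?_⟩
  have hNA : IsClosed (N ∩ A) := hNc.inter hA
  haveI : NormalSpace ↥(N ∩ A) := hNA.isClosedEmbedding_subtypeVal.normalSpace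
  have hsh : Shrinks ↥(N ∩ A) := shrinks_of_cp hNcp
  have hgood := goodIn_range (Y := Y) hsh (φ := fun z : ↥(N ∩ A) => f z)
    (hf.continuous.comp continuous_subtype_val)
    (hf.isClosedMap.comp hNA.isClosedEmbedding_subtypeVal.isClosedMap)
  refine hgood.mono (hN'c.inter hB) ?_
  rintro z ⟨hzN, hzB⟩
  rw [← hAim] at hzB
  obtain ⟨x', hx'A, rfl⟩ := hzB
  have hx'N : x' ∈ interior N := by
    by_contra hcon
    exact hN'O hzN ⟨x', ⟨hx'A, hcon⟩, rfl⟩
  exact ⟨⟨x', interior_subset hx'N, hx'A⟩, rfl⟩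

/-- the set of points with nontrivial fibre -/
def multSet (f : X → Y) : Set Y := {y | ∃ x x', x ≠ x' ∧ f x = y ∧ f x' = y}

lemma local_of_mult [NormalSpace Y] [T1Space Y] (hX : EmbC0 X) (hf : IsProperMap f)
    (hsurj : Function.Surjective f) (hC : CPScattered ↥(closure (multSet f))) (B : Set Y)
    (hB : IsClosed B) (hne : B.Nonempty) :
    ∃ y ∈ B, ∃ N ∈ 𝓝 y, IsClosed N ∧ GoodIn (N ∩ B) := by
  classical
  by_cases hBC : B ⊆ closure (multSet f)
  · let C := closure (multSet f)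
    let B' : Set C := Subtype.val ⁻¹' B
    have hB' : IsClosed B' := hB.preimage continuous_subtype_val
    obtain ⟨y₀, hy₀⟩ := hne
    obtain ⟨z, hzB, N, hN, hNc, hNcp⟩ := hC B' hB' ⟨⟨y₀, hBC hy₀⟩, hy₀⟩
    rw [nhds_subtype_eq_comap] at hN
    obtain ⟨O, hO, hON⟩ := mem_comap.1 hN
    obtain ⟨N', hN', hN'c, hN'O⟩ := exists_mem_nhds_isClosed_subset hO
    refine ⟨z.1, hzB, N', hN', hN'c, ?_⟩
    have hCc : IsClosed C := isClosed_closure
    have hNB : IsClosed (N ∩ B') := hNc.inter hB'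
    haveI : NormalSpace C := hCc.isClosedEmbedding_subtypeVal.normalSpace
    haveI : NormalSpace ↥(N ∩ B') := hNB.isClosedEmbedding_subtypeVal.normalSpace
    have hgood := goodIn_range (Y := Y) (shrinks_of_cp hNcp)
      (φ := fun z : ↥(N ∩ B') => (z.1 : Y))
      (continuous_subtype_val.comp continuous_subtype_val)
      (hCc.isClosedEmbedding_subtypeVal.isClosedMap.comp
        hNB.isClosedEmbedding_subtypeVal.isClosedMap)
    refine hgood.mono (hN'c.inter hB) ?_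
    rintro w ⟨hwN, hwB⟩
    exact ⟨⟨⟨w, hBC hwB⟩, hON (hN'O hwN), hwB⟩, rfl⟩
  · obtain ⟨y, hyB, hyC⟩ := not_subset.1 hBC
    obtain ⟨N, hN, hNc, hNO⟩ := exists_closed_nhd (isClosed_closure.isOpen_compl) hyC
    refine ⟨y, hyB, N, hN, hNc, ?_⟩
    refine goodIn_of_inj hX hf hsurj (isClosed_closure.isOpen_compl)
      (inter_subset_left.trans hNO) ?_
    intro x x' hxx' hx
    by_contra hne'
    exact hx (subset_closure ⟨x, x', hne', rfl, hxx'.symm⟩)

theorem embC0_main [NormalSpace X] (hX : EmbC0 X) (hf : IsProperMap f)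
    (hsurj : Function.Surjective f)
    (hC : CPScattered X ∨ CPScattered ↥(closure (multSet f))) : EmbC0 Y := by
  have hX' := hX
  obtain ⟨Γ, e, he, h0⟩ := hX'
  obtain ⟨I, X', _, s, rk, π, hs, hπ, hπs⟩ := exists_zeroDim e he.isInducing h0
  have : T2Space X := he.t2Space
  have : T1Space Y := t1_image hf.isClosedMap hsurj
  have : NormalSpace Y := normal_image hf.continuous hf.isClosedMap hsurj
  have hf' : IsProperMap (f ∘ π) := hf.comp hπ
  have hs' : Function.Surjective (f ∘ π) := hsurj.comp hπs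
  have hgood : GoodIn (univ : Set Y) := by
    refine goodIn_univ hs hf' hs' ?_
    rcases hC with hC | hC
    · exact local_of_cpScattered hf hsurj hC
    · exact local_of_mult hX hf hsurj hC
  refine embC0_of_coversPF hX hf hsurj ?_
  intro V hV hVm hVc
  obtain ⟨W, h1, h2, h3⟩ := hgood V hV hVm hVc.ge
  exact ⟨W, h1, h2, fun y => h3 y trivial⟩

end scattered

end Pool.Agent.Lib37
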